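import Pool.Agent.J6H54.LF.Joint
import Pool.Agent.J6H54.LF.Liou
import Pool.Agent.R352.E.Gz

set_option autoImplicit false

/-!
# `ζ(3)`, `ζ(3) / π³` and Euler's constant: tails, over fields of Liouville numbers

For an integer `k ≥ 2` and a positive rational number `x` let `R_k(x)` be the number
`(-1)^k / k! * ∫ (∑_j ω^j log t_j)^k exp (-∑_j t_j) dt`, `ω = exp (2 π i / k)`, the integral being over
the points of the positive octant of dimension `k` with `max t_j ≥ x` (over the whole octant one gets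
`ζ(k)`), and let `δ(x) = ∫_0^∞ e^(-s) / (x + s) ds`, so that `δ(1)` is the Gompertz constant and
`e^(-x) δ(x)` is `∫_x^∞ e^(-t) / t dt`. These tails are exponentially small in `x`.

Call a field `F` of real numbers simultaneously Liouville if for any finitely many elements
`x_1, …, x_m` of `F` and any `w` there are arbitrarily large `q` with `‖q x_i‖ < q ^ (-w)` for all `i`.
Such fields are `ℚ`, the field generated by all numbers `∑ a_n 10^(-n!)` with bounded sequences of
integers `a_n` (it has the cardinality of the continuum), and many others. For every such field `F`: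

(1) the numbers `e`, `γ + log x + e^(-x) δ(x)` and `ζ(k) - R_k(x)` (`k ≥ 2`, `x` positive rational) are
algebraically independent over `F`;

(2) `e`, `γ + log x` for the positive rational `x` with `δ(x)` algebraic over `F(e)`, and `ζ(k)` for
the `k ≥ 2` for which some `R_k(y)` is algebraic over `F(e)`, are algebraically independent over `F`;

(3) for all real numbers `y_1, …, y_r` at most `r` of the following numbers are algebraic over `F(e)`:
`y_1, …, y_r`, the `δ(x)` for which `γ + log x` is algebraic over `F(e, y_1, …, y_r)`, and the `R_k(x)`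
for which `ζ(k)` is algebraic over `F(e, y_1, …, y_r)`; and with any `s` of these `δ(x)`, `R_k(x)` the
field `F(e, y_1, …, y_r)` generates a field of transcendence degree at least `s + 1` over `F`;

(4) so at most three of the numbers `γ`, `ζ(3)`, `ζ(3)/π³`, `δ(1)`, `R_3(x)`, `R_k(x)` (`k` even, `x`
positive rational) are algebraic over `F(e)`; at most one of `ζ(3)` and `R_3(x)` (`x` positive
rational) is; one of `γ` and `δ(1)` is transcendental over `F(e)`; and if `δ(1)`, some `R_2(x)` and some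
`R_3(y)` are algebraic over `F(e)`, then `e, γ, ζ(3), ζ(3)/π³` are algebraically independent over `F`;

(5) at most `π(N) + 1` of the numbers `δ(1), …, δ(N)` are algebraic over `F(e)`.

The functions `γ + log x + e^(-x) δ(x)` and `ζ(k) - R_k(x)` of `x` are algebraic over the field generated
by `e^x` and E-functions; the proof combines the measure of algebraic independence for the values of the
latter with the good rational approximations of the elements of `F`.
-/

namespace Pool.Agent.Results.MP_e48a95_nt.TailsOverLiouvilleFields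

open Set MeasureTheory
open Pool.Agent.Q163.LE Pool.Agent.J6H54.LF

/-- the zeta value `ζ(k) = ∑ 1 / (n+1)^k` -/
noncomputable def zeta (k : ℕ) : ℝ := ∑' n : ℕ, 1 / ((n : ℝ) + 1) ^ k

/-- Euler's constant -/
noncomputable abbrev gam : ℝ := Real.eulerMascheroniConstant

/-- `δ(x) = ∫_0^∞ e^(-s) / (x + s) ds` -/
noncomputable def delta (x : ℚ) : ℝ := ∫ s in Ioi (0 : ℝ), Real.exp (-s) / ((x : ℝ) + s)

/-- `ω = exp (2 π i / k)` -/
noncomputable def root (k : ℕ) : ℂ := Complex.exp (2 * Real.pi * Complex.I / k)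

/-- `(∑_j ω^j log t_j)^k exp (-∑_j t_j)` -/
noncomputable def integrand (k : ℕ) (t : Fin k → ℝ) : ℂ :=
  (∑ j : Fin k, root k ^ (j : ℕ) * (Real.log (t j) : ℂ)) ^ k * ((Real.exp (-∑ j, t j) : ℝ) : ℂ)

/-- the positive octant without the cube `(0, x)^k` -/
def rest (k : ℕ) (x : ℝ) : Set (Fin k → ℝ) := {t | (∀ j, 0 < t j) ∧ ∃ j, x ≤ t j}

/-- the integral over the rest -/
noncomputable def tailIntegral (k : ℕ) (x : ℝ) : ℂ :=
  (-1) ^ k / (k.factorial : ℂ) * ∫ t in rest k x, integrand k t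

/-- `R_k(x)`, as a real number -/
noncomputable def R (k : ℕ) (x : ℚ) : ℝ := (tailIntegral k x).re

/-- the constants `γ + log x` (`k = 1`) and `ζ(k)` (`k ≥ 2`) -/
noncomputable def const (k : ℕ) (x : ℚ) : ℝ := if k = 1 then gam + Real.log x else zeta k

/-- the tails `δ(x)` (`k = 1`) and `R_k(x)` (`k ≥ 2`) -/
noncomputable def tail (k : ℕ) (x : ℚ) : ℝ := if k = 1 then delta x else R k x

/-- `x` is algebraic over `F(e)` -/
def OverE (F : Subfield ℝ) (x : ℝ) : Prop :=
  IsAlgebraic (IntermediateField.adjoin F {Real.exp 1}) x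

/-- `x` is algebraic over `F(e, y_1, …, y_r)` -/
def OverEAnd (F : Subfield ℝ) {r : ℕ} (y : Fin r → ℝ) (x : ℝ) : Prop :=
  IsAlgebraic (IntermediateField.adjoin F ({Real.exp 1} ∪ range y)) x

/-- the names `(k, x)` of the tails whose constant is algebraic over `F(e, y_1, …, y_r)` -/
def Names (F : Subfield ℝ) {r : ℕ} (y : Fin r → ℝ) : Set (ℕ × ℚ) :=
  {p | 1 ≤ p.1 ∧ 0 < p.2 ∧ OverEAnd F y (const p.1 p.2)}

/-- the positive rational `x` with `δ(x)` algebraic over `F(e)` -/
def X (F : Subfield ℝ) : Set ℚ := {x | 0 < x ∧ OverE F (delta x)}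

/-- the `k ≥ 2` for which some `R_k(x)` is algebraic over `F(e)` -/
def K (F : Subfield ℝ) : Set ℕ := {k | 2 ≤ k ∧ ∃ x : ℚ, 0 < x ∧ OverE F (R k x)}

/-- the field generated by all numbers `∑ a_n 10^(-n!)` with bounded sequences of integers `a_n` -/
noncomputable def liouvilleField : Subfield ℝ := Subfield.closure {x : ℝ | ∃ (a : ℕ → ℤ) (B : ℤ),
  (∀ n, |a n| ≤ B) ∧ x = ∑' n, (a n : ℝ) / 10 ^ n.factorial}

theorem rest_eq (k : ℕ) (x : ℝ) :
    rest k x = Pool.Agent.R352.Q.cube k (Ioi 0) \ Pool.Agent.R352.Q.cube k (Ioo 0 x) := by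
  ext t
  simp only [rest, Pool.Agent.R352.Q.cube, mem_sdiff, mem_univ_pi, mem_Ioi, mem_Ioo]
  constructor
  · rintro ⟨h1, j, h2⟩
    exact ⟨h1, fun h => absurd (h j).2 (not_lt.2 h2)⟩
  · rintro ⟨h1, h2⟩
    push Not at h2
    obtain ⟨j, hj⟩ := h2
    exact ⟨h1, j, hj (h1 j)⟩

theorem tailIntegral_eq {k : ℕ} (hk : 2 ≤ k) {x : ℚ} (hx : 0 < x) :
    tailIntegral k x = (Pool.Agent.R352.Q.Rk k x : ℂ) := by
  have hx' : (0 : ℝ) < x := by exact_mod_cast hx
  have h : tailIntegral k x = Pool.Agent.R352.Q.NI k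
      (Pool.Agent.R352.Q.cube k (Ioi 0) \ Pool.Agent.R352.Q.cube k (Ioo 0 x)) := by
    rw [tailIntegral, rest_eq]
    rfl
  rw [h, Pool.Agent.R352.Q.NI_diff, Pool.Agent.R352.Q.NI_full hk, Pool.Agent.R352.Q.NI_box hk hx',
    Pool.Agent.R352.Q.Rk]
  push_cast
  rfl

theorem R_eq {k : ℕ} (hk : 2 ≤ k) {x : ℚ} (hx : 0 < x) : R k x = Pool.Agent.R352.Q.Rk k x := by
  rw [R, tailIntegral_eq hk hx, Complex.ofReal_re]

theorem three {x : ℚ} (hx : 0 < x) : R 3 x = 1 / 12 * ∫ t in rest 3 x,
    Real.log (t 0 * t 1 / t 2 ^ 2) ^ 3 * Real.exp (-(t 0 + t 1 + t 2)) := by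
  have hx' : (0 : ℝ) < x := by exact_mod_cast hx
  rw [rest_eq, Pool.Agent.R352.Q.three_rest hx', R_eq (by norm_num) hx]
  ring

theorem const_eq (k : ℕ) (x : ℚ) (hk : 1 ≤ k) : const k x = Kc (k - 1) x := by
  by_cases h : k = 1
  · rw [const, Kc, if_pos h, if_pos (by omega)]
  · rw [const, Kc, if_neg h, if_neg (by omega), Nat.sub_add_cancel hk]
    rfl

theorem tail_eq (k : ℕ) (x : ℚ) (hk : 1 ≤ k) (hx : 0 < x) : tail k x = Tl (k - 1) x := by
  by_cases h : k = 1
  · rw [tail, Tl, if_pos h, if_pos (by omega)]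
    rfl
  · rw [tail, Tl, if_neg h, if_neg (by omega), Nat.sub_add_cancel hk]
    exact R_eq (by omega) hx

/-- `e` and the numbers `γ + log x + e^(-x) δ(x)`, `ζ(k) - R_k(x)` -/
theorem indep {F : Subfield ℝ} (hF : SimLiouville F) :
    AlgebraicIndependent F (fun o : Option {p : ℕ × ℚ // 1 ≤ p.1 ∧ 0 < p.2} => o.elim (Real.exp 1)
      fun p => if p.1.1 = 1 then gam + Real.log p.1.2 + Real.exp (-(p.1.2 : ℝ)) * delta p.1.2
        else zeta p.1.1 - R p.1.1 p.1.2) := by
  let f : Option {p : ℕ × ℚ // 1 ≤ p.1 ∧ 0 < p.2} → Option (ℕ × {x : ℚ // 0 < x}) :=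
    Option.map fun p => (p.1.1 - 1, ⟨p.1.2, p.2.2⟩)
  have hf : Function.Injective f := by
    refine Option.map_injective ?_
    intro p p' h
    simp only [Prod.mk.injEq, Subtype.mk.injEq] at h
    have h1 := p.2.1
    have h2 := p'.2.1
    exact Subtype.ext (Prod.ext (by omega) h.2)
  have h2 := (W_all hF).comp f hf
  convert h2 using 1
  ext o
  cases o with
  | none => rfl
  | some p =>
    obtain ⟨⟨k, x⟩, hk, hx⟩ := p
    simp only at hk hx
    have hx' : (0 : ℝ) < x := by exact_mod_cast hx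
    by_cases h : k = 1
    · subst h
      simp only [Option.elim, if_true, Function.comp_apply, f, Option.map_some,
        Pool.Agent.R352.Q.W]
      rw [Pool.Agent.R352.E.EE_rel 1 hx', Pool.Agent.R352.E.NN_one, Pool.Agent.R352.E.dl_one hx']
      have : delta x = Pool.Agent.R352.E.gz x := rfl
      rw [this]
      norm_num
      ring
    · simp only [Option.elim, if_neg h, Function.comp_apply, f, Option.map_some,
        Pool.Agent.R352.Q.W]
      rw [if_neg (by omega), Nat.sub_add_cancel hk, R_eq (by omega) hx, Pool.Agent.R352.Q.Rk]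
      have : zeta k = Pool.Agent.R352.E.zt k := rfl
      rw [this]
      ring

theorem consts {F : Subfield ℝ} (hF : SimLiouville F) :
    AlgebraicIndependent F (fun o : Option (X F ⊕ K F) => o.elim (Real.exp 1)
      (Sum.elim (fun x => gam + Real.log (x : ℚ)) fun k => zeta k)) := by
  have hch : ∀ k : K F, ∃ x : ℚ, 0 < x ∧ OverE F (R k x) := fun k => k.2.2
  choose g hg1 hg2 using hch
  let p : X F ⊕ K F → ℕ × ℚ := Sum.elim (fun x => (0, x)) fun k => ((k : ℕ) - 1, g k)
  refine indep_const hF p ?_ ?_ ?_ _ ?_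
  · intro a b hab
    rcases a with a | a <;> rcases b with b | b
    · simp only [p, Sum.elim_inl, Prod.mk.injEq, true_and] at hab
      rw [Subtype.ext hab]
    · simp only [p, Sum.elim_inl, Sum.elim_inr, Prod.mk.injEq] at hab
      have := b.2.1
      omega
    · simp only [p, Sum.elim_inl, Sum.elim_inr, Prod.mk.injEq] at hab
      have := a.2.1
      omega
    · simp only [p, Sum.elim_inr, Prod.mk.injEq] at hab
      have h1 := a.2.1
      have h2 := b.2.1
      have : a = b := Subtype.ext (by omega)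
      rw [this]
  · rintro (x | k)
    · exact x.2.1
    · exact hg1 k
  · rintro (x | k)
    · exact mem_clK.2 x.2.2
    · have h1 : 2 ≤ (k : ℕ) := k.2.1
      have h2 : (k : ℕ) - 1 ≠ 0 := by omega
      change Tl ((k : ℕ) - 1) (g k) ∈ _
      rw [Tl, if_neg h2, Nat.sub_add_cancel (by omega), ← R_eq h1 (hg1 k)]
      exact mem_clK.2 (hg2 k)
  · rintro (x | k)
    · exact subset_clK _ (Or.inr rfl)
    · have h1 : 2 ≤ (k : ℕ) := k.2.1
      have h2 : (k : ℕ) - 1 ≠ 0 := by omega
      change Kc ((k : ℕ) - 1) (g k) ∈ _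
      rw [Kc, if_neg h2, Nat.sub_add_cancel (by omega)]
      exact subset_clK _ (Or.inr rfl)

/-- the renaming `(k, x) ↦ (k - 1, x)` -/
def ren (r : ℕ) : Fin r ⊕ (ℕ × ℚ) → Fin r ⊕ (ℕ × ℚ) := Sum.map id fun p => (p.1 - 1, p.2)

theorem count {F : Subfield ℝ} (hF : SimLiouville F) {r : ℕ} (y : Fin r → ℝ) :
    {i : Fin r ⊕ (ℕ × ℚ) | Sum.elim (fun j => OverE F (y j))
      (fun p => p ∈ Names F y ∧ OverE F (tail p.1 p.2)) i}.encard ≤ (r : ℕ∞) := by
  classical
  refine Pool.Agent.R352.E.encard_le_of_finset _ _ fun t ht => ?_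
  have hinj : InjOn (ren r) (t : Set (Fin r ⊕ (ℕ × ℚ))) := by
    intro a ha b hb hab
    rcases a with a | a <;> rcases b with b | b
    · simpa [ren] using hab
    · simp [ren] at hab
    · simp [ren] at hab
    · have h1 : 1 ≤ a.1 := (ht ha).1.1
      have h2 : 1 ≤ b.1 := (ht hb).1.1
      simp only [ren, Sum.map_inr, Sum.inr.injEq, Prod.mk.injEq] at hab
      have : a = b := Prod.ext (by omega) hab.2
      rw [this]
  have hcard : (t.image (ren r)).card = t.card := Finset.card_image_of_injOn hinj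
  rw [← hcard]
  refine count_tails hF y _ (fun i hi => ?_) (fun p hp => ?_)
  · obtain ⟨j, hj, rfl⟩ := Finset.mem_image.1 hi
    have h1 := ht hj
    rcases j with j | p
    · exact mem_clK.2 h1
    · obtain ⟨⟨h2, h3, -⟩, h4⟩ := h1
      simp only [ren, Sum.map_inr, Sum.elim_inr]
      rw [← tail_eq _ _ h2 h3]
      exact mem_clK.2 h4
  · obtain ⟨j, hj, hjp⟩ := Finset.mem_image.1 hp
    have h1 := ht hj
    rcases j with j | q
    · simp [ren] at hjp
    · simp only [ren, Sum.map_inr, Sum.inr.injEq] at hjp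
      subst hjp
      obtain ⟨⟨h2, h3, h4⟩, -⟩ := h1
      refine ⟨h3, ?_⟩
      simp only
      rw [← const_eq _ _ h2]
      exact mem_clK.2 h4

theorem trdeg {F : Subfield ℝ} (hF : SimLiouville F) {r : ℕ} (y : Fin r → ℝ) (S : Finset (ℕ × ℚ))
    (hS : (S : Set (ℕ × ℚ)) ⊆ Names F y) :
    ((S.card + 1 : ℕ) : Cardinal) ≤ Algebra.trdeg F (IntermediateField.adjoin F
      ({Real.exp 1} ∪ range y ∪ (fun p : ℕ × ℚ => tail p.1 p.2) '' (S : Set (ℕ × ℚ)))) := by
  classical
  have hinj : InjOn (fun p : ℕ × ℚ => (p.1 - 1, p.2)) (S : Set (ℕ × ℚ)) := by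
    intro a ha b hb hab
    have h1 : 1 ≤ a.1 := (hS ha).1
    have h2 : 1 ≤ b.1 := (hS hb).1
    simp only [Prod.mk.injEq] at hab
    exact Prod.ext (by omega) hab.2
  have h := trdeg_tails hF y (S.image fun p => (p.1 - 1, p.2)) (by
    intro p hp
    obtain ⟨q, hq, rfl⟩ := Finset.mem_image.1 hp
    obtain ⟨h2, h3, h4⟩ := hS hq
    refine ⟨h3, ?_⟩
    simp only
    rw [← const_eq _ _ h2]
    exact mem_clK.2 h4)
  rw [Finset.card_image_of_injOn hinj] at h
  have e : (fun p : ℕ × ℚ => tail p.1 p.2) '' (S : Set (ℕ × ℚ)) =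
      (fun p : ℕ × ℚ => Tl p.1 p.2) '' ((S.image fun p => (p.1 - 1, p.2) : Finset (ℕ × ℚ)) : Set (ℕ × ℚ)) := by
    rw [Finset.coe_image, image_image]
    refine image_congr fun p hp => ?_
    exact tail_eq _ _ (hS hp).1 (hS hp).2.1
  rw [e]
  exact h

theorem subset_main {F : Subfield ℝ} {r : ℕ} (y : Fin r → ℝ) (j : Fin r) :
    y j ∈ clK F ({Real.exp 1} ∪ range y) := subset_clK _ (Or.inr ⟨j, rfl⟩)

theorem zeta_pos : 0 < zeta 3 := Pool.Agent.R352.E.zt3_pos

theorem pi_mem {F : Subfield ℝ} {S : Set ℝ} (h1 : zeta 3 ∈ clK F S)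
    (h2 : zeta 3 / Real.pi ^ 3 ∈ clK F S) : Real.pi ∈ clK F S := by
  refine of_powK (n := 3) (by norm_num) ?_
  have h3 : Real.pi ^ 3 = zeta 3 / (zeta 3 / Real.pi ^ 3) := by
    have := zeta_pos.ne'
    have := Real.pi_ne_zero
    field_simp
  rw [h3]
  exact (clK F S).div_mem h1 h2

theorem zeta_even_mem {F : Subfield ℝ} {S : Set ℝ} (h : Real.pi ∈ clK F S) {k : ℕ} (hk : Even k)
    (h2 : 2 ≤ k) : zeta k ∈ clK F S := by
  obtain ⟨j, rfl⟩ := hk
  have h3 : j + j = 2 * j := by ring
  rw [h3, ← cl_cl]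
  exact Pool.Agent.R352.E.zt_even (by rwa [cl_cl]) j (by omega)

/-- the three numbers of the question -/
noncomputable def numbers : Fin 3 → ℝ := ![gam, zeta 3, zeta 3 / Real.pi ^ 3]

theorem const_mem {F : Subfield ℝ} {p : ℕ × ℚ}
    (hp : p = (1, 1) ∨ ((p.1 = 3 ∨ Even p.1) ∧ 2 ≤ p.1 ∧ 0 < p.2)) : p ∈ Names F numbers := by
  have hz : zeta 3 ∈ clK F ({Real.exp 1} ∪ range numbers) := subset_main numbers 1
  have hz' : zeta 3 / Real.pi ^ 3 ∈ clK F ({Real.exp 1} ∪ range numbers) := subset_main numbers 2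
  rcases hp with rfl | ⟨h1, h2, h3⟩
  · refine ⟨le_rfl, one_pos, mem_clK.1 ?_⟩
    have : const 1 1 = numbers 0 := by
      simp [const, numbers]
    rw [this]
    exact subset_main numbers 0
  · refine ⟨by omega, h3, mem_clK.1 ?_⟩
    rw [const, if_neg (by omega)]
    rcases h1 with h1 | h1
    · rw [h1]
      exact hz
    · exact zeta_even_mem (pi_mem hz hz') h1 h2

theorem three_numbers {F : Subfield ℝ} (hF : SimLiouville F) :
    {i : Fin 3 ⊕ (ℕ × ℚ) | Sum.elim (fun j => OverE F (numbers j))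
      (fun p => (p = (1, 1) ∨ ((p.1 = 3 ∨ Even p.1) ∧ 2 ≤ p.1 ∧ 0 < p.2)) ∧
        OverE F (tail p.1 p.2)) i}.encard ≤ 3 := by
  refine le_trans (encard_le_encard ?_) (count hF numbers)
  rintro (j | p) h
  · exact h
  · exact ⟨const_mem h.1, h.2⟩

theorem zeta_three {F : Subfield ℝ} (hF : SimLiouville F) :
    {o : Option ℚ | o.elim (OverE F (zeta 3)) fun x => 0 < x ∧ OverE F (R 3 x)}.encard ≤ 1 := by
  have h := count hF (fun _ : Fin 1 => zeta 3)
  let f : Option ℚ → Fin 1 ⊕ (ℕ × ℚ) := fun o => o.elim (Sum.inl 0) fun x => Sum.inr (3, x)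
  have hf : Function.Injective f := by
    intro a b hab
    cases a <;> cases b <;> simp_all [f]
  rw [← hf.encard_image]
  refine le_trans (encard_le_encard ?_) h
  rintro _ ⟨o, ho, rfl⟩
  cases o with
  | none => exact ho
  | some x =>
    refine ⟨⟨by norm_num, ho.1, mem_clK.1 ?_⟩, ?_⟩
    · simp only [const]
      exact subset_clK _ (Or.inr ⟨0, rfl⟩)
    · simp only [tail]
      exact ho.2

theorem gamma_delta {F : Subfield ℝ} (hF : SimLiouville F) {x : ℚ} (hx : 0 < x)
    (h1 : OverE F (gam + Real.log x)) (h2 : OverE F (delta x)) : False := by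
  have h := (consts hF).comp (fun o : Option Unit => o.map fun _ => Sum.inl (⟨x, hx, h2⟩ : X F))
    (by
      intro a b _
      cases a <;> cases b <;> simp_all)
  have h3 := card_le_card h (y := fun _ : Unit => Real.exp 1) (fun o => ?_)
  · simp at h3
  · have h4 : range (fun _ : Unit => Real.exp 1) = {Real.exp 1} := range_const
    rw [h4]
    cases o with
    | none => exact subset_clK _ rfl
    | some u => exact mem_clK.2 h1

theorem four {F : Subfield ℝ} (hF : SimLiouville F) {x y : ℚ} (hx : 0 < x) (hy : 0 < y)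
    (h1 : OverE F (delta 1)) (h2 : OverE F (R 2 x)) (h3 : OverE F (R 3 y)) :
    AlgebraicIndependent F ![Real.exp 1, gam, zeta 3, zeta 3 / Real.pi ^ 3] := by
  have h := indep_const hF (ι := Fin 3) ![(0, 1), (1, x), (2, y)] (by
      intro a b hab
      fin_cases a <;> fin_cases b <;> simp_all) (by
      intro i
      fin_cases i
      · exact one_pos
      · exact hx
      · exact hy) (by
      intro i
      fin_cases i
      · exact mem_clK.2 h1
      · rw [R_eq le_rfl hx] at h2
        exact mem_clK.2 h2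
      · rw [R_eq (by norm_num) hy] at h3
        exact mem_clK.2 h3) ![gam, Real.pi, zeta 3] (by
      intro i
      fin_cases i
      · have : Kc 0 1 = gam := by simp [Kc]
        simp only [Fin.zero_eta, Matrix.cons_val_zero]
        rw [this]
        exact subset_clK _ (Or.inr rfl)
      · exact zeta_even_mem (k := 2) (subset_clK _ (Or.inr rfl)) even_two le_rfl
      · exact subset_clK _ (Or.inr rfl))
  refine indep_of_span h (fun o => ?_) (by simp)
  have e : ∀ i, ![Real.exp 1, gam, zeta 3, zeta 3 / Real.pi ^ 3] i ∈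
      clK F (range ![Real.exp 1, gam, zeta 3, zeta 3 / Real.pi ^ 3]) := fun i => subset_clK _ ⟨i, rfl⟩
  cases o with
  | none => exact e 0
  | some i =>
    fin_cases i
    · exact e 1
    · exact pi_mem (e 2) (e 3)
    · exact e 2

theorem primes {F : Subfield ℝ} (hF : SimLiouville F) (N : ℕ) :
    {n : ℕ | 1 ≤ n ∧ n ≤ N ∧ OverE F (delta n)}.encard ≤ ((Nat.primeCounting N + 1 : ℕ) : ℕ∞) := by
  have h1 : AlgebraicIndependent F (fun o : Option (X F) => o.elim (Real.exp 1)
      (fun x => gam + Real.log (x : ℚ))) := by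
    have h2 := (consts hF).comp (fun o : Option (X F) => o.map Sum.inl)
      (Option.map_injective Sum.inl_injective)
    convert h2 using 1
    ext o
    cases o <;> rfl
  have h2 : AlgebraicIndependent ℚ (fun o : Option (X F) => o.elim (Real.exp 1)
      (fun x => gam + Real.log (x : ℚ))) := h1.restrictScalars (algebraMap ℚ F).injective
  refine Pool.Agent.R352.E.encard_le_of_finset _ _ fun t ht => ?_
  refine Pool.Agent.R352.E.gz_count h2 N t fun n hn => ?_
  obtain ⟨h3, h4, h5⟩ := ht hn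
  exact ⟨h3, h4, by exact_mod_cast h3, h5⟩

/-- **`ζ(3)`, `ζ(3) / π³` and Euler's constant over simultaneously Liouville fields: tails.** -/
theorem result :
    -- examples of simultaneously Liouville fields
    SimLiouville liouvilleField ∧
    -- the tail of `ζ(3)` as a real integral
    (∀ x : ℚ, 0 < x → R 3 x = 1 / 12 * ∫ t in rest 3 x,
      Real.log (t 0 * t 1 / t 2 ^ 2) ^ 3 * Real.exp (-(t 0 + t 1 + t 2))) ∧
    ∀ F : Subfield ℝ, SimLiouville F →
      -- (1)
      AlgebraicIndependent F (fun o : Option {p : ℕ × ℚ // 1 ≤ p.1 ∧ 0 < p.2} =>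
        o.elim (Real.exp 1) fun p =>
          if p.1.1 = 1 then gam + Real.log p.1.2 + Real.exp (-(p.1.2 : ℝ)) * delta p.1.2
          else zeta p.1.1 - R p.1.1 p.1.2) ∧
      -- (2)
      AlgebraicIndependent F (fun o : Option (X F ⊕ K F) => o.elim (Real.exp 1)
        (Sum.elim (fun x => gam + Real.log (x : ℚ)) fun k => zeta k)) ∧
      -- (3)
      (∀ (r : ℕ) (y : Fin r → ℝ),
        {i : Fin r ⊕ (ℕ × ℚ) | Sum.elim (fun j => OverE F (y j))
          (fun p => p ∈ Names F y ∧ OverE F (tail p.1 p.2)) i}.encard ≤ (r : ℕ∞) ∧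
        ∀ S : Finset (ℕ × ℚ), (S : Set (ℕ × ℚ)) ⊆ Names F y →
          ((S.card + 1 : ℕ) : Cardinal) ≤ Algebra.trdeg F (IntermediateField.adjoin F
            ({Real.exp 1} ∪ range y ∪ (fun p : ℕ × ℚ => tail p.1 p.2) '' (S : Set (ℕ × ℚ))))) ∧
      -- (4)
      {i : Fin 3 ⊕ (ℕ × ℚ) | Sum.elim (fun j => OverE F (numbers j))
        (fun p => (p = (1, 1) ∨ ((p.1 = 3 ∨ Even p.1) ∧ 2 ≤ p.1 ∧ 0 < p.2)) ∧
          OverE F (tail p.1 p.2)) i}.encard ≤ 3 ∧
      {o : Option ℚ | o.elim (OverE F (zeta 3)) fun x => 0 < x ∧ OverE F (R 3 x)}.encard ≤ 1 ∧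
      (∀ x : ℚ, 0 < x → ¬ (OverE F (gam + Real.log x) ∧ OverE F (delta x))) ∧
      (∀ x y : ℚ, 0 < x → 0 < y → OverE F (delta 1) → OverE F (R 2 x) → OverE F (R 3 y) →
        AlgebraicIndependent F ![Real.exp 1, gam, zeta 3, zeta 3 / Real.pi ^ 3]) ∧
      -- (5)
      (∀ N : ℕ, {n : ℕ | 1 ≤ n ∧ n ≤ N ∧ OverE F (delta n)}.encard ≤
        ((Nat.primeCounting N + 1 : ℕ) : ℕ∞)) :=
  ⟨liou_field, fun _ hx => three hx, fun _ hF => ⟨indep hF, consts hF,
    fun _ y => ⟨count hF y, trdeg hF y⟩, three_numbers hF, zeta_three hF,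
    fun _ hx h => gamma_delta hF hx h.1 h.2,
    fun _ _ hx hy h1 h2 h3 => four hF hx hy h1 h2 h3, primes hF⟩⟩

end Pool.Agent.Results.MP_e48a95_nt.TailsOverLiouvilleFields
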