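import Pool.Agent.J6H23.Bes.Asm2
import Pool.Agent.J6H54.LF.Liou
import Pool.Agent.Results.MP_e48a95_nt.TailsOverLiouvilleFields

set_option autoImplicit false

/-!
# `ζ(3)`, `ζ(3) / π³` and Euler's constant: Bessel functions and tails

For a positive rational number `x` let `I_0(2x) = ∑ x^(2n) / n!²`, `I_1(2x) = ∑ x^(2n+1) / (n! (n+1)!)` and
`K_0(2x) = ∫_0^∞ exp(-2x cosh s) ds` be the values of the modified Bessel functions, so that
`K_0(2x) = -(γ + log x) I_0(2x) + ∑ (1 + 1/2 + … + 1/n) x^(2n) / n!²`.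
Let further `δ(y) = ∫_0^∞ e^(-s) / (y + s) ds` and, for `k ≥ 2`, let `R_k(y)` be the number
`(-1)^k / k! * ∫ (∑_j ω^j log t_j)^k exp (-∑_j t_j) dt`, `ω = exp (2 π i / k)`, the integral being over
the points of the positive octant of dimension `k` with `max t_j ≥ y` (over the whole octant one gets
`ζ(k)`).

Let `F` be a simultaneously Liouville field of real numbers (for any finitely many elements
`x_1, …, x_m` of `F` and any `w` there are arbitrarily large `q` with `‖q x_i‖ < q ^ (-w)` for all `i`;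
e.g. `ℚ`, or the field generated by all numbers `∑ a_n 10^(-n!)` with bounded sequences of integers),
let `x` be a positive rational number and `F_x = F(e, I_0(2x), I_1(2x))`. Then:

(1) the numbers `e`, `I_0(2x)`, `I_1(2x)`, `K_0(2x) + (γ + log x) I_0(2x)`,
`γ + log y + e^(-y) δ(y)` and `ζ(k) - R_k(y)` (`k ≥ 2`, `y` positive rational) are algebraically
independent over `F`;

(2) so are `e`, `I_0(2x)`, `I_1(2x)`, `γ + log y` for the positive rational `y` for which `δ(y)` is
algebraic over `F_x`, or for which `y = x` and `K_0(2x)` is algebraic over `F_x`, and `ζ(k)` for the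
`k ≥ 2` for which some `R_k(y)` is algebraic over `F_x`;

(3) for all real numbers `y_1, …, y_r` at most `r` of the following numbers are algebraic over `F_x`:
`y_1, …, y_r`, the `δ(y)` for which `γ + log y` is algebraic over `F_x(y_1, …, y_r)`, the `R_k(y)`
for which `ζ(k)` is algebraic over `F_x(y_1, …, y_r)`, and, if `γ + log x` is algebraic over
`F_x(y_1, …, y_r)`, `K_0(2x)`; and with any `s` of these tails the field `F_x(y_1, …, y_r)` generates a
field of transcendence degree at least `s + 3` over `F`;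

(4) at most one of the three numbers `γ + log x`, `δ(x)`, `K_0(2x)` is algebraic over `F_x`;

(5) at most three of the numbers `γ`, `ζ(3)`, `ζ(3)/π³`, `δ(1)`, `K_0(2)`, `R_3(y)`, `R_k(y)` (`k` even,
`y` positive rational) are algebraic over `F(e, I_0(2), I_1(2))`; and if `δ(1)` or `K_0(2)`, some
`R_2(y)` and some `R_3(y')` are algebraic over this field, then
`e, I_0(2), I_1(2), γ, ζ(3), ζ(3)/π³` are algebraically independent over `F`.

The proof extends the system of E-functions of the exponential integrals by the Bessel system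
`I_0(2xz)`, its derivative and the logarithmic companion, and shows the algebraic independence of all
these functions over `ℚ(z)`; the measure of algebraic independence of the values then is combined with
the good rational approximations of the elements of `F`.
-/

namespace Pool.Agent.Results.MP_e48a95_nt.BesselConstants

open Set MeasureTheory
open Pool.Agent.Q163.LE Pool.Agent.J6H54.LF
open Pool.Agent.J6H23.Bes (KK TT VV Pos Bx bas VV_all count_tt trdeg_tt indep_kk rh_eq range_bas)

/-- the zeta value `ζ(k) = ∑ 1 / (n+1)^k` -/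
noncomputable def zeta (k : ℕ) : ℝ := ∑' n : ℕ, 1 / ((n : ℝ) + 1) ^ k

/-- Euler's constant -/
noncomputable abbrev gam : ℝ := Real.eulerMascheroniConstant

/-- `I_0(2x) = ∑ x^(2n) / n!²` -/
noncomputable def I0 (x : ℚ) : ℝ := ∑' n : ℕ, (x : ℝ) ^ (2 * n) / (n.factorial : ℝ) ^ 2

/-- `I_1(2x) = ∑ x^(2n+1) / (n! (n+1)!)` -/
noncomputable def I1 (x : ℚ) : ℝ :=
  ∑' n : ℕ, (x : ℝ) ^ (2 * n + 1) / ((n.factorial : ℝ) * (n + 1).factorial)

/-- `K_0(2x) = ∫_0^∞ exp(-2x cosh s) ds` -/
noncomputable def K0 (x : ℚ) : ℝ := ∫ s in Ioi (0 : ℝ), Real.exp (-(2 * (x : ℝ) * Real.cosh s))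

/-- `δ(y) = ∫_0^∞ e^(-s) / (y + s) ds` -/
noncomputable def delta (y : ℚ) : ℝ := ∫ s in Ioi (0 : ℝ), Real.exp (-s) / ((y : ℝ) + s)

/-- `ω = exp (2 π i / k)` -/
noncomputable def root (k : ℕ) : ℂ := Complex.exp (2 * Real.pi * Complex.I / k)

/-- `(∑_j ω^j log t_j)^k exp (-∑_j t_j)` -/
noncomputable def integrand (k : ℕ) (t : Fin k → ℝ) : ℂ :=
  (∑ j : Fin k, root k ^ (j : ℕ) * (Real.log (t j) : ℂ)) ^ k * ((Real.exp (-∑ j, t j) : ℝ) : ℂ)

/-- the positive octant without the cube `(0, y)^k` -/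
def rest (k : ℕ) (y : ℝ) : Set (Fin k → ℝ) := {t | (∀ j, 0 < t j) ∧ ∃ j, y ≤ t j}

/-- `R_k(y)`, as a real number -/
noncomputable def R (k : ℕ) (y : ℚ) : ℝ :=
  ((-1) ^ k / (k.factorial : ℂ) * ∫ t in rest k y, integrand k t).re

/-- names of tails: `none` is the name of `K_0(2x)`, `some (1, y)` of `δ(y)` and `some (k, y)`, `k ≥ 2`,
of `R_k(y)` -/
def IsName (o : Option (ℕ × ℚ)) : Prop := ∀ p, o = some p → 1 ≤ p.1 ∧ 0 < p.2

/-- the constants `γ + log x`, `γ + log y` and `ζ(k)` -/
noncomputable def const (x : ℚ) : Option (ℕ × ℚ) → ℝ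
  | none => gam + Real.log x
  | some (k, y) => if k = 1 then gam + Real.log y else zeta k

/-- the tails `K_0(2x)`, `δ(y)` and `R_k(y)` -/
noncomputable def tail (x : ℚ) : Option (ℕ × ℚ) → ℝ
  | none => K0 x
  | some (k, y) => if k = 1 then delta y else R k y

/-- the combinations `K_0(2x) + (γ + log x) I_0(2x)`, `γ + log y + e^(-y) δ(y)` and `ζ(k) - R_k(y)` -/
noncomputable def comb (x : ℚ) : Option (ℕ × ℚ) → ℝ
  | none => K0 x + (gam + Real.log x) * I0 x
  | some (k, y) => if k = 1 then gam + Real.log y + Real.exp (-(y : ℝ)) * delta y else zeta k - R k y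

/-- `z` is algebraic over `F_x = F(e, I_0(2x), I_1(2x))` -/
def Over (F : Subfield ℝ) (x : ℚ) (z : ℝ) : Prop :=
  IsAlgebraic (IntermediateField.adjoin F {Real.exp 1, I0 x, I1 x}) z

/-- `z` is algebraic over `F_x(y_1, …, y_r)` -/
def OverAnd (F : Subfield ℝ) (x : ℚ) {r : ℕ} (y : Fin r → ℝ) (z : ℝ) : Prop :=
  IsAlgebraic (IntermediateField.adjoin F ({Real.exp 1, I0 x, I1 x} ∪ range y)) z

/-- the names of the tails whose constant is algebraic over `F_x(y_1, …, y_r)` -/
def Names (F : Subfield ℝ) (x : ℚ) {r : ℕ} (y : Fin r → ℝ) : Set (Option (ℕ × ℚ)) :=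
  {o | IsName o ∧ OverAnd F x y (const x o)}

/-- the positive rational `y` with `δ(y)` algebraic over `F_x`, and `x` if `K_0(2x)` is -/
def X (F : Subfield ℝ) (x : ℚ) : Set ℚ :=
  {y | 0 < y ∧ (Over F x (delta y) ∨ (y = x ∧ Over F x (K0 x)))}

/-- the `k ≥ 2` for which some `R_k(y)` is algebraic over `F_x` -/
def K (F : Subfield ℝ) (x : ℚ) : Set ℕ := {k | 2 ≤ k ∧ ∃ y : ℚ, 0 < y ∧ Over F x (R k y)}

/-- the field generated by all numbers `∑ a_n 10^(-n!)` with bounded sequences of integers `a_n` -/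
noncomputable def liouvilleField : Subfield ℝ := Subfield.closure {x : ℝ | ∃ (a : ℕ → ℤ) (B : ℤ),
  (∀ n, |a n| ≤ B) ∧ x = ∑' n, (a n : ℝ) / 10 ^ n.factorial}

theorem R_eq {k : ℕ} (hk : 2 ≤ k) {y : ℚ} (hy : 0 < y) : R k y = Pool.Agent.R352.Q.Rk k y :=
  TailsOverLiouvilleFields.R_eq hk hy

/-- the renaming `(k, y) ↦ (k - 1, y)` -/
def ren : Option (ℕ × ℚ) → Option (ℕ × ℚ) := Option.map fun p => (p.1 - 1, p.2)

theorem ren_pos {o : Option (ℕ × ℚ)} (ho : IsName o) : Pos (ren o) := by
  rcases o with _ | p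
  · intro q hq
    simp [ren] at hq
  · intro q hq
    simp only [ren, Option.map_some, Option.some.injEq] at hq
    rw [← hq]
    exact (ho p rfl).2

theorem ren_inj {o o' : Option (ℕ × ℚ)} (ho : IsName o) (ho' : IsName o') (h : ren o = ren o') :
    o = o' := by
  rcases o with _ | p <;> rcases o' with _ | p'
  · rfl
  · simp [ren] at h
  · simp [ren] at h
  · simp only [ren, Option.map_some, Option.some.injEq, Prod.mk.injEq] at h
    have h1 := (ho p rfl).1
    have h2 := (ho' p' rfl).1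
    have : p = p' := Prod.ext (by omega) h.2
    rw [this]

theorem const_eq (x : ℚ) {o : Option (ℕ × ℚ)} (ho : IsName o) : const x o = KK x (ren o) := by
  rcases o with _ | ⟨k, y⟩
  · rfl
  · obtain ⟨hk, -⟩ := ho _ rfl
    simp only at hk
    by_cases h : k = 1
    · simp [const, KK, ren, Kc, h]
    · have h2 : k - 1 ≠ 0 := by omega
      simp only [const, KK, ren, Kc, Option.map_some, Option.elim, if_neg h, if_neg h2]
      rw [Nat.sub_add_cancel hk]
      rfl

theorem tail_eq (x : ℚ) {o : Option (ℕ × ℚ)} (ho : IsName o) : tail x o = TT x (ren o) := by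
  rcases o with _ | ⟨k, y⟩
  · rfl
  · obtain ⟨hk, hy⟩ := ho _ rfl
    simp only at hk hy
    by_cases h : k = 1
    · simp only [tail, TT, ren, Tl, Option.map_some, Option.elim, h, if_true]
      rfl
    · have h2 : k - 1 ≠ 0 := by omega
      simp only [tail, TT, ren, Tl, Option.map_some, Option.elim, if_neg h, if_neg h2]
      rw [Nat.sub_add_cancel hk]
      exact R_eq (by omega) hy

theorem comb_eq {x : ℚ} (hx : 0 < x) {o : Option (ℕ × ℚ)} (ho : IsName o) :
    comb x o = VV x (ren o) := by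
  have hx' : (0 : ℝ) < x := by exact_mod_cast hx
  rcases o with _ | ⟨k, y⟩
  · exact (rh_eq hx').symm
  · obtain ⟨hk, hy⟩ := ho _ rfl
    simp only at hk hy
    have hy' : (0 : ℝ) < y := by exact_mod_cast hy
    by_cases h : k = 1
    · simp only [comb, VV, ren, Pool.Agent.R352.Q.W, Option.map_some, Option.elim, h, if_true]
      rw [Pool.Agent.R352.E.EE_rel 1 hy', Pool.Agent.R352.E.NN_one, Pool.Agent.R352.E.dl_one hy']
      have : delta y = Pool.Agent.R352.E.gz y := rfl
      rw [this]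
      norm_num
      ring
    · have h2 : k - 1 ≠ 0 := by omega
      simp only [comb, VV, ren, Pool.Agent.R352.Q.W, Option.map_some, Option.elim, if_neg h, if_neg h2]
      rw [Nat.sub_add_cancel hk, R_eq (by omega) hy, Pool.Agent.R352.Q.Rk]
      have : zeta k = Pool.Agent.R352.E.zt k := rfl
      rw [this]
      ring

theorem bas_eq (x : ℚ) : ![Real.exp 1, I0 x, I1 x] = bas x := rfl

/-- (1) -/
theorem indep {F : Subfield ℝ} (hF : SimLiouville F) {x : ℚ} (hx : 0 < x) :
    AlgebraicIndependent F (Sum.elim ![Real.exp 1, I0 x, I1 x]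
      fun o : {o : Option (ℕ × ℚ) // IsName o} => comb x o.1) := by
  let f : Fin 3 ⊕ {o : Option (ℕ × ℚ) // IsName o} → Fin 3 ⊕ {o // Pos o} :=
    Sum.map id fun o => ⟨ren o.1, ren_pos o.2⟩
  have hf : Function.Injective f := by
    refine Function.Injective.sumMap Function.injective_id ?_
    intro a b h
    simp only [Subtype.mk.injEq] at h
    exact Subtype.ext (ren_inj a.2 b.2 h)
  have h2 := (VV_all hF hx).comp f hf
  have e : (Sum.elim ![Real.exp 1, I0 x, I1 x] fun o : {o : Option (ℕ × ℚ) // IsName o} => comb x o.1) =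
      (Sum.elim (bas x) fun o : {o // Pos o} => VV x o.1) ∘ f := by
    funext i
    rcases i with i | i
    · rfl
    · exact comb_eq hx i.2
  rw [e]
  exact h2

theorem mem_of_over {F : Subfield ℝ} {x : ℚ} {z : ℝ} (h : Over F x z) : z ∈ clK F (Bx x) :=
  mem_clK.2 h

theorem over_of_mem {F : Subfield ℝ} {x : ℚ} {z : ℝ} (h : z ∈ clK F (Bx x)) : Over F x z :=
  mem_clK.1 h

/-- (2) -/
theorem consts {F : Subfield ℝ} (hF : SimLiouville F) {x : ℚ} (hx : 0 < x) :
    AlgebraicIndependent F (Sum.elim ![Real.exp 1, I0 x, I1 x]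
      (Sum.elim (fun y : X F x => gam + Real.log (y : ℚ)) fun k : K F x => zeta k)) := by
  classical
  have hch : ∀ k : K F x, ∃ y : ℚ, 0 < y ∧ Over F x (R k y) := fun k => k.2.2
  choose g hg1 hg2 using hch
  let p : X F x ⊕ K F x → Option (ℕ × ℚ) := Sum.elim
    (fun y => if Over F x (delta y) then some (0, (y : ℚ)) else none) fun k => some ((k : ℕ) - 1, g k)
  have hp1 : ∀ y : X F x, Over F x (delta y) → p (Sum.inl y) = some (0, (y : ℚ)) := fun y h => if_pos h
  have hp2 : ∀ y : X F x, ¬ Over F x (delta y) → p (Sum.inl y) = none := fun y h => if_neg h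
  have hp3 : ∀ k : K F x, p (Sum.inr k) = some ((k : ℕ) - 1, g k) := fun k => rfl
  have hne : ∀ k : K F x, (k : ℕ) - 1 ≠ 0 := fun k => by
    have := k.2.1
    omega
  refine indep_kk hF hx p ?_ ?_ ?_ _ ?_
  · intro a b hab
    rcases a with a | a <;> rcases b with b | b
    · by_cases ha : Over F x (delta a) <;> by_cases hb : Over F x (delta b)
      · rw [hp1 a ha, hp1 b hb] at hab
        simp only [Option.some.injEq, Prod.mk.injEq, true_and] at hab
        rw [Subtype.ext hab]
      · rw [hp1 a ha, hp2 b hb] at hab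
        simp at hab
      · rw [hp2 a ha, hp1 b hb] at hab
        simp at hab
      · have h1 := (a.2.2.resolve_left ha).1
        have h2 := (b.2.2.resolve_left hb).1
        rw [Subtype.ext (h1.trans h2.symm)]
    · by_cases ha : Over F x (delta a)
      · rw [hp1 a ha, hp3] at hab
        simp only [Option.some.injEq, Prod.mk.injEq] at hab
        exact absurd hab.1.symm (hne b)
      · rw [hp2 a ha, hp3] at hab
        simp at hab
    · by_cases hb : Over F x (delta b)
      · rw [hp1 b hb, hp3] at hab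
        simp only [Option.some.injEq, Prod.mk.injEq] at hab
        exact absurd hab.1 (hne a)
      · rw [hp2 b hb, hp3] at hab
        simp at hab
    · rw [hp3, hp3] at hab
      simp only [Option.some.injEq, Prod.mk.injEq] at hab
      have h1 := a.2.1
      have h2 := b.2.1
      have : a = b := Subtype.ext (by omega)
      rw [this]
  · rintro (y | k)
    · by_cases hy : Over F x (delta y)
      · rw [hp1 y hy]
        intro q hq
        simp only [Option.some.injEq] at hq
        rw [← hq]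
        exact y.2.1
      · rw [hp2 y hy]
        intro q hq
        simp at hq
    · rw [hp3]
      intro q hq
      simp only [Option.some.injEq] at hq
      rw [← hq]
      exact hg1 k
  · rintro (y | k)
    · by_cases hy : Over F x (delta y)
      · rw [hp1 y hy]
        exact mem_of_over hy
      · rw [hp2 y hy]
        exact mem_of_over (y.2.2.resolve_left hy).2
    · rw [hp3]
      change Tl ((k : ℕ) - 1) (g k) ∈ _
      have h1 : 2 ≤ (k : ℕ) := k.2.1
      rw [Tl, if_neg (hne k), Nat.sub_add_cancel (by omega), ← R_eq h1 (hg1 k)]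
      exact mem_of_over (hg2 k)
  · rintro (y | k)
    · by_cases hy : Over F x (delta y)
      · rw [hp1 y hy]
        exact subset_clK _ (Or.inr rfl)
      · rw [hp2 y hy]
        refine subset_clK _ (Or.inr ?_)
        have h1 : (y : ℚ) = x := (y.2.2.resolve_left hy).1
        simp only [KK, Option.elim, Sum.elim_inl, mem_singleton_iff]
        rw [h1]
    · rw [hp3]
      change Kc ((k : ℕ) - 1) (g k) ∈ _
      have h1 : 2 ≤ (k : ℕ) := k.2.1
      rw [Kc, if_neg (hne k), Nat.sub_add_cancel (by omega)]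
      exact subset_clK _ (Or.inr rfl)

/-- (3), counting -/
theorem count {F : Subfield ℝ} (hF : SimLiouville F) {x : ℚ} (hx : 0 < x) {r : ℕ} (y : Fin r → ℝ) :
    {i : Fin r ⊕ Option (ℕ × ℚ) | Sum.elim (fun j => Over F x (y j))
      (fun o => o ∈ Names F x y ∧ Over F x (tail x o)) i}.encard ≤ (r : ℕ∞) := by
  classical
  refine Pool.Agent.R352.E.encard_le_of_finset _ _ fun t ht => ?_
  have hinj : InjOn (Sum.map id ren) (t : Set (Fin r ⊕ Option (ℕ × ℚ))) := by
    intro a ha b hb hab
    rcases a with a | a <;> rcases b with b | b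
    · simpa using hab
    · simp at hab
    · simp at hab
    · have h1 : IsName a := (ht ha).1.1
      have h2 : IsName b := (ht hb).1.1
      simp only [Sum.map_inr, Sum.inr.injEq] at hab
      rw [ren_inj h1 h2 hab]
  have hcard : (t.image (Sum.map id ren)).card = t.card := Finset.card_image_of_injOn hinj
  rw [← hcard]
  refine count_tt hF hx y _ (fun i hi => ?_) (fun o ho => ?_)
  · obtain ⟨j, hj, rfl⟩ := Finset.mem_image.1 hi
    have h1 := ht hj
    rcases j with j | p
    · exact mem_of_over h1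
    · obtain ⟨⟨h2, -⟩, h4⟩ := h1
      simp only [Sum.map_inr, Sum.elim_inr]
      rw [← tail_eq x h2]
      exact mem_of_over h4
  · obtain ⟨j, hj, hjp⟩ := Finset.mem_image.1 ho
    have h1 := ht hj
    rcases j with j | q
    · simp at hjp
    · simp only [Sum.map_inr, Sum.inr.injEq] at hjp
      subst hjp
      obtain ⟨⟨h2, h4⟩, -⟩ := h1
      refine ⟨ren_pos h2, ?_⟩
      rw [← const_eq x h2]
      exact mem_clK.2 h4

/-- (3), transcendence degree -/
theorem trdeg {F : Subfield ℝ} (hF : SimLiouville F) {x : ℚ} (hx : 0 < x) {r : ℕ} (y : Fin r → ℝ)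
    (S : Finset (Option (ℕ × ℚ))) (hS : (S : Set (Option (ℕ × ℚ))) ⊆ Names F x y) :
    ((S.card + 3 : ℕ) : Cardinal) ≤ Algebra.trdeg F (IntermediateField.adjoin F
      ({Real.exp 1, I0 x, I1 x} ∪ range y ∪ tail x '' (S : Set (Option (ℕ × ℚ))))) := by
  classical
  have hinj : InjOn ren (S : Set (Option (ℕ × ℚ))) := fun a ha b hb hab =>
    ren_inj (hS ha).1 (hS hb).1 hab
  have h := trdeg_tt hF hx y (S.image ren) (by
    intro p hp
    obtain ⟨q, hq, rfl⟩ := Finset.mem_image.1 hp
    obtain ⟨h2, h4⟩ := hS hq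
    refine ⟨ren_pos h2, ?_⟩
    rw [← const_eq x h2]
    exact mem_clK.2 h4)
  rw [Finset.card_image_of_injOn hinj] at h
  have e : tail x '' (S : Set (Option (ℕ × ℚ))) = TT x '' ((S.image ren : Finset (Option (ℕ × ℚ))) :
      Set (Option (ℕ × ℚ))) := by
    rw [Finset.coe_image, image_image]
    exact image_congr fun p hp => tail_eq x (hS hp).1
  rw [e]
  exact h

theorem subset_main {F : Subfield ℝ} (x : ℚ) {r : ℕ} (y : Fin r → ℝ) (j : Fin r) :
    y j ∈ clK F (({Real.exp 1, I0 x, I1 x} : Set ℝ) ∪ range y) := subset_clK _ (Or.inr ⟨j, rfl⟩)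

/-- (4) -/
theorem one_of_three {F : Subfield ℝ} (hF : SimLiouville F) {x : ℚ} (hx : 0 < x) :
    {i : Fin 3 | Over F x (![gam + Real.log x, delta x, K0 x] i)}.encard ≤ 1 := by
  have h := count hF hx (fun _ : Fin 1 => gam + Real.log (x : ℝ))
  let f : Fin 3 → Fin 1 ⊕ Option (ℕ × ℚ) := ![Sum.inl 0, Sum.inr (some (1, x)), Sum.inr none]
  have hf : Function.Injective f := by
    intro a b hab
    fin_cases a <;> fin_cases b <;> simp_all [f]
  rw [← hf.encard_image]
  refine le_trans (encard_le_encard ?_) h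
  have hc : gam + Real.log (x : ℝ) ∈ clK F (({Real.exp 1, I0 x, I1 x} : Set ℝ) ∪
      range fun _ : Fin 1 => gam + Real.log (x : ℝ)) := subset_clK _ (Or.inr ⟨0, rfl⟩)
  rintro _ ⟨i, hi, rfl⟩
  fin_cases i
  · exact hi
  · refine ⟨⟨fun p hp => ?_, mem_clK.1 ?_⟩, ?_⟩
    · simp only [Option.some.injEq] at hp
      rw [← hp]
      exact ⟨le_rfl, hx⟩
    · exact hc
    · exact hi
  · refine ⟨⟨fun p hp => ?_, mem_clK.1 ?_⟩, ?_⟩
    · simp at hp
    · exact hc
    · exact hi

theorem pi_mem {F : Subfield ℝ} {S : Set ℝ} (h1 : zeta 3 ∈ clK F S)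
    (h2 : zeta 3 / Real.pi ^ 3 ∈ clK F S) : Real.pi ∈ clK F S :=
  TailsOverLiouvilleFields.pi_mem h1 h2

theorem zeta_even_mem {F : Subfield ℝ} {S : Set ℝ} (h : Real.pi ∈ clK F S) {k : ℕ} (hk : Even k)
    (h2 : 2 ≤ k) : zeta k ∈ clK F S :=
  TailsOverLiouvilleFields.zeta_even_mem h hk h2

/-- the three numbers of the question -/
noncomputable def numbers : Fin 3 → ℝ := ![gam, zeta 3, zeta 3 / Real.pi ^ 3]

/-- the names of `K_0(2)`, `δ(1)`, `R_3(y)`, `R_k(y)` (`k` even) -/
def Special (o : Option (ℕ × ℚ)) : Prop :=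
  o = none ∨ o = some (1, 1) ∨ ∃ k y, o = some (k, y) ∧ (k = 3 ∨ Even k) ∧ 2 ≤ k ∧ 0 < y

theorem special_mem {F : Subfield ℝ} {o : Option (ℕ × ℚ)} (ho : Special o) : o ∈ Names F 1 numbers := by
  have hz : zeta 3 ∈ clK F (({Real.exp 1, I0 1, I1 1} : Set ℝ) ∪ range numbers) :=
    subset_main 1 numbers 1
  have hz' : zeta 3 / Real.pi ^ 3 ∈ clK F (({Real.exp 1, I0 1, I1 1} : Set ℝ) ∪ range numbers) :=
    subset_main 1 numbers 2
  have hg : gam ∈ clK F (({Real.exp 1, I0 1, I1 1} : Set ℝ) ∪ range numbers) := subset_main 1 numbers 0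
  rcases ho with rfl | rfl | ⟨k, y, rfl, h1, h2, h3⟩
  · refine ⟨fun p hp => by simp at hp, mem_clK.1 ?_⟩
    have : const 1 none = gam := by simp [const]
    rw [this]
    exact hg
  · refine ⟨fun p hp => ?_, mem_clK.1 ?_⟩
    · simp only [Option.some.injEq] at hp
      rw [← hp]
      exact ⟨le_rfl, one_pos⟩
    · have : const 1 (some (1, 1)) = gam := by simp [const]
      rw [this]
      exact hg
  · refine ⟨fun p hp => ?_, mem_clK.1 ?_⟩
    · simp only [Option.some.injEq] at hp
      rw [← hp]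
      exact ⟨by simp only; omega, h3⟩
    · have : const 1 (some (k, y)) = zeta k := by simp [const, show k ≠ 1 by omega]
      rw [this]
      rcases h1 with h1 | h1
      · rw [h1]
        exact hz
      · exact zeta_even_mem (pi_mem hz hz') h1 h2

/-- (5), first part -/
theorem three_numbers {F : Subfield ℝ} (hF : SimLiouville F) :
    {i : Fin 3 ⊕ Option (ℕ × ℚ) | Sum.elim (fun j => Over F 1 (numbers j))
      (fun o => Special o ∧ Over F 1 (tail 1 o)) i}.encard ≤ 3 := by
  refine le_trans (encard_le_encard ?_) (count hF one_pos numbers)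
  rintro (j | p) h
  · exact h
  · exact ⟨special_mem h.1, h.2⟩

/-- (5), second part -/
theorem six {F : Subfield ℝ} (hF : SimLiouville F) {y z : ℚ} (hy : 0 < y) (hz : 0 < z)
    (h1 : Over F 1 (delta 1) ∨ Over F 1 (K0 1)) (h2 : Over F 1 (R 2 y)) (h3 : Over F 1 (R 3 z)) :
    AlgebraicIndependent F ![Real.exp 1, I0 1, I1 1, gam, zeta 3, zeta 3 / Real.pi ^ 3] := by
  have hc := consts hF (x := 1) one_pos
  have h1' : (1 : ℚ) ∈ X F 1 := ⟨one_pos, h1.imp id fun h => ⟨rfl, h⟩⟩
  have h2' : 2 ∈ K F 1 := ⟨le_rfl, y, hy, h2⟩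
  have h3' : 3 ∈ K F 1 := ⟨by norm_num, z, hz, h3⟩
  let f : Fin 6 → Fin 3 ⊕ (X F 1 ⊕ K F 1) := ![Sum.inl 0, Sum.inl 1, Sum.inl 2,
    Sum.inr (Sum.inl ⟨1, h1'⟩), Sum.inr (Sum.inr ⟨2, h2'⟩), Sum.inr (Sum.inr ⟨3, h3'⟩)]
  have hf : Function.Injective f := by
    intro a b hab
    fin_cases a <;> fin_cases b <;> simp_all [f]
  have hi := hc.comp f hf
  refine indep_of_span hi (fun i => ?_) le_rfl
  set v : Fin 6 → ℝ := ![Real.exp 1, I0 1, I1 1, gam, zeta 3, zeta 3 / Real.pi ^ 3] with hv
  have e : ∀ i, v i ∈ clK F (range v) := fun i => subset_clK _ ⟨i, rfl⟩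
  fin_cases i
  · exact e 0
  · exact e 1
  · exact e 2
  · show gam + Real.log ((1 : ℚ) : ℝ) ∈ _
    rw [Rat.cast_one, Real.log_one, add_zero]
    exact e 3
  · exact zeta_even_mem (k := 2) (pi_mem (e 4) (e 5)) even_two le_rfl
  · exact e 4

/-- **`ζ(3)`, `ζ(3) / π³` and Euler's constant: Bessel functions and tails.** -/
theorem result :
    -- an example of a simultaneously Liouville field
    SimLiouville liouvilleField ∧
    ∀ F : Subfield ℝ, SimLiouville F →
      (∀ x : ℚ, 0 < x →
        -- (1)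
        AlgebraicIndependent F (Sum.elim ![Real.exp 1, I0 x, I1 x]
          fun o : {o : Option (ℕ × ℚ) // IsName o} => comb x o.1) ∧
        -- (2)
        AlgebraicIndependent F (Sum.elim ![Real.exp 1, I0 x, I1 x]
          (Sum.elim (fun y : X F x => gam + Real.log (y : ℚ)) fun k : K F x => zeta k)) ∧
        -- (3)
        (∀ (r : ℕ) (y : Fin r → ℝ),
          {i : Fin r ⊕ Option (ℕ × ℚ) | Sum.elim (fun j => Over F x (y j))
            (fun o => o ∈ Names F x y ∧ Over F x (tail x o)) i}.encard ≤ (r : ℕ∞) ∧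
          ∀ S : Finset (Option (ℕ × ℚ)), (S : Set (Option (ℕ × ℚ))) ⊆ Names F x y →
            ((S.card + 3 : ℕ) : Cardinal) ≤ Algebra.trdeg F (IntermediateField.adjoin F
              ({Real.exp 1, I0 x, I1 x} ∪ range y ∪ tail x '' (S : Set (Option (ℕ × ℚ)))))) ∧
        -- (4)
        {i : Fin 3 | Over F x (![gam + Real.log x, delta x, K0 x] i)}.encard ≤ 1) ∧
      -- (5)
      {i : Fin 3 ⊕ Option (ℕ × ℚ) | Sum.elim (fun j => Over F 1 (numbers j))
        (fun o => Special o ∧ Over F 1 (tail 1 o)) i}.encard ≤ 3 ∧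
      (∀ y z : ℚ, 0 < y → 0 < z → (Over F 1 (delta 1) ∨ Over F 1 (K0 1)) →
        Over F 1 (R 2 y) → Over F 1 (R 3 z) →
        AlgebraicIndependent F ![Real.exp 1, I0 1, I1 1, gam, zeta 3, zeta 3 / Real.pi ^ 3]) :=
  ⟨liou_field, fun _ hF => ⟨fun _ hx => ⟨indep hF hx, consts hF hx,
    fun _ y => ⟨count hF hx y, trdeg hF hx y⟩, one_of_three hF hx⟩,
    three_numbers hF, fun _ _ hy hz h1 h2 h3 => six hF hy hz h1 h2 h3⟩⟩

end Pool.Agent.Results.MP_e48a95_nt.BesselConstants
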