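import Pool.Agent.J6H21.DR.Multi
import Pool.Agent.J6H54.LG.Tails
import Pool.Agent.R473.JC.Final

set_option autoImplicit false

/-!
# Relations between the digits of `γ`, `ζ(3)`, `ζ(3) / π³` and related numbers

For integers `k ≥ 2` and rational `x > 0`, `0 < a < 1` let

* `δ(x) = ∫_0^∞ e^(-s) / (x + s) ds` (`δ(1)` is the Gompertz constant); its constant is `γ + log x`;
* `R_k(x) = (-1)^k / k! * ∫ (∑_j ω^j log t_j)^k exp (-∑_j t_j) dt`, `ω = exp (2 π i / k)`, the integral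
  being over the points of the positive octant with `max t_j ≥ x`; its constant is `ζ(k)`, the value of
  the same integral over the whole octant;
* `Γ(a, x) = ∫_x^∞ t^(a-1) e^(-t) dt`; its constant is `Γ(a)`.

These numbers are called tails.

Let `b ≥ 2` and let `E(X) = d_1 X + ⋯ + d_L X^L` and `S(X) = s_1 X + ⋯ + s_L X^L`, where the `d_i` and
`s_i` are the digits of `e` and of a real number `x` in base `b` after they have been changed at at most
`K` of the places `1, …, L`. The number `N_b(x) = N_b(x; r, K, L)` is the least `k` such that `X^(L+1)`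
divides `∑_(i, j ≤ r) h_ij(X) E(X)^i S(X)^j` for some polynomials `h_ij` over `ℚ` of degree at most `k`,
not all zero, and for some such choice of `E` and `S`. (There are always relations with `k` about
`L / (r+1)^2`.) The number `N'_b(x)` is defined in the same way without `E`, i.e. by the sums
`∑_(j ≤ r) h_j(X) S(X)^j`; for `r = 1` this is essentially the linear complexity of the digits.

(1) Let `y_1, …, y_n` be real numbers and `S` a finite set of tails with constants algebraic over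
`ℚ(e, y_1, …, y_n)`. For every `r` there is `A` such that for any `n + 1` of the numbers `y_1, …, y_n`
and the tails in `S`, each of them read in a base of its own, with a length of its own and with a number
of changes of its own,
`min_i L_i log b_i ≤ A^(1 + ∑ K_i) ∑_i (N_(b_i)(x_i; r, K_i, L_i) + 1) log b_i`.

(2) So for every finite set `S` of tails `δ(1)`, `R_3(x)`, `R_k(x)` (`k` even), `Γ(1/2, x)` and every `r`
there is `c > 0` such that for all bases `b`, all `K` and all `L` at most three of the numbers `γ`,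
`ζ(3)`, `ζ(3) / π³` and the tails in `S` satisfy `N_b(x; r, K, L) + 1 < c^(K+1) L`.

(3) For every `r` there is `c > 0` with `c^(K+1) L ≤ N_b(u) + N_b(v) + 2` for all `b`, `K`, `L` if `v` is
a tail and `u` its constant, for instance `u = γ`, `v = δ(1)`, or `u = ζ(3)`, `v = R_3(x)`; the same is
true for `u = R_k(x)`, `v = R_k(y)`, `x ≠ y`.

(4) For every `r` there is `c > 0` with `c^(K+1) L ≤ N'_b(u) + N'_b(v) + 2` for all `b`, `K`, `L` for
`u = ζ(3)`, `v = ζ(3) / π³`, more generally for `u = t π^i`, `v = t π^j` with real `t ≠ 0` and `i ≠ j`,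
and for `u = t + f(π)`, `v = t + g(π)` with any real `t` (for instance `γ`) and polynomials `f`, `g` over
`ℤ` the difference of which is not constant.
-/

namespace Pool.Agent.Results.MP_e48a95_nt.DigitRelations

open Set MeasureTheory Polynomial
open Pool.Agent.J6H54.LG (Ok Kt Tt joint_tails')
open Pool.Agent.R352.E (clF mem_clF subset_clF)

/-- the zeta value `ζ(k) = ∑ 1 / (n+1)^k` -/
noncomputable def zeta (k : ℕ) : ℝ := ∑' n : ℕ, 1 / ((n : ℝ) + 1) ^ k

/-- Euler's constant -/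
noncomputable abbrev gam : ℝ := Real.eulerMascheroniConstant

/-- `δ(x) = ∫_0^∞ e^(-s) / (x + s) ds` -/
noncomputable def delta (x : ℚ) : ℝ := ∫ s in Ioi (0 : ℝ), Real.exp (-s) / ((x : ℝ) + s)

/-- `ω = exp (2 π i / k)` -/
noncomputable def root (k : ℕ) : ℂ := Complex.exp (2 * Real.pi * Complex.I / k)

/-- `(∑_j ω^j log t_j)^k exp (-∑_j t_j)` -/
noncomputable def integrand (k : ℕ) (t : Fin k → ℝ) : ℂ :=
  (∑ j : Fin k, root k ^ (j : ℕ) * (Real.log (t j) : ℂ)) ^ k * ((Real.exp (-∑ j, t j) : ℝ) : ℂ)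

/-- the positive octant without the cube `(0, x)^k` -/
def rest (k : ℕ) (x : ℝ) : Set (Fin k → ℝ) := {t | (∀ j, 0 < t j) ∧ ∃ j, x ≤ t j}

/-- the integral over the rest -/
noncomputable def tailIntegral (k : ℕ) (x : ℝ) : ℂ :=
  (-1) ^ k / (k.factorial : ℂ) * ∫ t in rest k x, integrand k t

/-- `R_k(x)`, as a real number -/
noncomputable def R (k : ℕ) (x : ℚ) : ℝ := (tailIntegral k x).re

/-- `Γ(a, x) = ∫_x^∞ t^(a-1) e^(-t) dt` -/
noncomputable def upper (a x : ℚ) : ℝ := ∫ t in Ioi (x : ℝ), t ^ ((a : ℝ) - 1) * Real.exp (-t)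

/-- the names of the tails -/
inductive Tail where
  | delta (x : ℚ)
  | zeta (k : ℕ) (x : ℚ)
  | gamma (a x : ℚ)

namespace Tail

/-- the admissible parameters -/
def Ok : Tail → Prop
  | delta x => 0 < x
  | zeta k x => 2 ≤ k ∧ 0 < x
  | gamma a x => 0 < a ∧ a < 1 ∧ 0 < x

/-- the tails -/
noncomputable def value : Tail → ℝ
  | delta x => DigitRelations.delta x
  | zeta k x => R k x
  | gamma a x => upper a x

/-- their constants -/
noncomputable def const : Tail → ℝ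
  | delta x => gam + Real.log x
  | zeta k _ => DigitRelations.zeta k
  | gamma a _ => Real.Gamma a

/-- `δ(1)`, `R_3(x)`, `R_k(x)` with even `k`, `Γ(1/2, x)` -/
def Good : Tail → Prop
  | delta x => x = 1
  | zeta k _ => k = 3 ∨ Even k
  | gamma a _ => a = 1 / 2

/-- the code -/
def code : Tail → ℕ × ℚ × ℚ
  | delta x => (0, 0, x)
  | zeta k x => (k - 1, 0, x)
  | gamma a x => (0, a, x)

end Tail

/-- `x` is algebraic over `ℚ(e, y_1, …, y_n)` -/
def OverQEAnd {n : ℕ} (y : Fin n → ℝ) (x : ℝ) : Prop :=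
  IsAlgebraic (IntermediateField.adjoin ℚ ({Real.exp 1} ∪ range y)) x

/-! ### the digits -/

/-- the `i`-th digit of `x` after the point in base `b` -/
noncomputable def digit (b : ℕ) (x : ℝ) (i : ℕ) : ℤ := ⌊x * (b : ℝ) ^ i⌋ % (b : ℤ)

/-- the polynomial `s_1 X + s_2 X^2 + ⋯ + s_L X^L` -/
noncomputable def seqPoly (s : ℕ → ℤ) (L : ℕ) : ℚ[X] :=
  ∑ l ∈ Finset.Icc 1 L, C (s l : ℚ) * X ^ l

/-- `d` and `s` are sequences of base `b` digits, and among the places `l = 1, …, L` at most `K` are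
such that `d_l` is not the `l`-th digit of `e` or `s_l` is not the `l`-th digit of `x` -/
def Close (b : ℕ) (x : ℝ) (K L : ℕ) (d s : ℕ → ℤ) : Prop :=
  (∀ l, 0 ≤ d l ∧ d l < b) ∧ (∀ l, 0 ≤ s l ∧ s l < b) ∧
    {l : ℕ | 1 ≤ l ∧ l ≤ L ∧ (d l ≠ digit b (Real.exp 1) l ∨ s l ≠ digit b x l)}.ncard ≤ K

/-- there are polynomials `h_ij` over `ℚ`, `i, j ≤ r`, of degree `≤ k`, not all zero, such that
`∑ h_ij(X) D(X)^i S(X)^j` is divisible by `X^(L+1)`, where `D` and `S` are the polynomials of the first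
`L` terms of `d` and of `s` -/
def Relation (d s : ℕ → ℤ) (r L k : ℕ) : Prop :=
  ∃ h : Fin (r + 1) → Fin (r + 1) → ℚ[X], h ≠ 0 ∧ (∀ i j, (h i j).natDegree ≤ k) ∧
    X ^ (L + 1) ∣ ∑ i, ∑ j, h i j * (seqPoly d L ^ (i : ℕ) * seqPoly s L ^ (j : ℕ))

/-- `N_b(x; r, K, L)`, the complexity of the first `L` digits of `x` relative to those of `e` -/
noncomputable def complexity (b : ℕ) (x : ℝ) (r K L : ℕ) : ℕ :=
  sInf {k : ℕ | ∃ d s, Close b x K L d s ∧ Relation d s r L k}

/-- `s` is a sequence of base `b` digits, and among the places `1, …, L` at most `K` are such that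
`s_l` is not the `l`-th digit of `x` -/
def Close' (b : ℕ) (x : ℝ) (K L : ℕ) (s : ℕ → ℤ) : Prop :=
  (∀ l, 0 ≤ s l ∧ s l < b) ∧ {l : ℕ | 1 ≤ l ∧ l ≤ L ∧ s l ≠ digit b x l}.ncard ≤ K

/-- there is a nonzero polynomial `P(X, Y)` over `ℚ` of degree `≤ r` in `Y` and `≤ k` in `X` such
that `P(X, S(X))` is divisible by `X^(L+1)` -/
def Relation' (s : ℕ → ℤ) (r L k : ℕ) : Prop :=
  ∃ P : ℚ[X][X], P ≠ 0 ∧ P.natDegree ≤ r ∧ (∀ j, (P.coeff j).natDegree ≤ k) ∧
    X ^ (L + 1) ∣ P.eval (seqPoly s L)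

/-- `N'_b(x; r, K, L)`, the complexity of the first `L` digits of `x` -/
noncomputable def complexity' (b : ℕ) (x : ℝ) (r K L : ℕ) : ℕ :=
  sInf {k : ℕ | ∃ s, Close' b x K L s ∧ Relation' s r L k}

/-! ### proofs -/

theorem rest_eq (k : ℕ) (x : ℝ) :
    rest k x = Pool.Agent.R352.Q.cube k (Ioi 0) \ Pool.Agent.R352.Q.cube k (Ioo 0 x) := by
  ext t
  simp only [rest, Pool.Agent.R352.Q.cube, mem_sdiff, mem_univ_pi, mem_Ioi, mem_Ioo]
  constructor
  · rintro ⟨h1, j, h2⟩
    exact ⟨h1, fun h => absurd (h j).2 (not_lt.2 h2)⟩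
  · rintro ⟨h1, h2⟩
    push Not at h2
    obtain ⟨j, hj⟩ := h2
    exact ⟨h1, j, hj (h1 j)⟩

theorem R_eq {k : ℕ} (hk : 2 ≤ k) {x : ℚ} (hx : 0 < x) : R k x = Pool.Agent.R352.Q.Rk k x := by
  have hx' : (0 : ℝ) < x := by exact_mod_cast hx
  have h : tailIntegral k x = Pool.Agent.R352.Q.NI k
      (Pool.Agent.R352.Q.cube k (Ioi 0) \ Pool.Agent.R352.Q.cube k (Ioo 0 x)) := by
    rw [tailIntegral, rest_eq]
    rfl
  have h2 : tailIntegral k x = (Pool.Agent.R352.Q.Rk k x : ℂ) := by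
    rw [h, Pool.Agent.R352.Q.NI_diff, Pool.Agent.R352.Q.NI_full hk, Pool.Agent.R352.Q.NI_box hk hx',
      Pool.Agent.R352.Q.Rk]
    push_cast
    rfl
  rw [R, h2, Complex.ofReal_re]

theorem ok_code {t : Tail} (ht : t.Ok) : Ok t.code := by
  cases t with
  | delta x => exact ⟨le_rfl, one_pos, ht, Or.inl rfl⟩
  | zeta k x => exact ⟨le_rfl, one_pos, ht.2, Or.inl rfl⟩
  | gamma a x => exact ⟨ht.1.le, ht.2.1, ht.2.2, Or.inr rfl⟩

theorem const_code {t : Tail} (ht : t.Ok) : Kt t.code = t.const := by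
  cases t with
  | delta x => simp [Kt, Tail.code, Tail.const]
  | zeta k x =>
    have h1 : 2 ≤ k := ht.1
    have h2 : k - 1 ≠ 0 := by omega
    change Kt (k - 1, 0, x) = zeta k
    rw [Kt, if_pos rfl, if_neg h2, Nat.sub_add_cancel (by omega)]
    rfl
  | gamma a x =>
    have h1 : a ≠ 0 := ht.1.ne'
    simp only [Kt, Tail.code, Tail.const, if_neg h1]

theorem value_code {t : Tail} (ht : t.Ok) : Tt t.code = t.value := by
  cases t with
  | delta x => simp [Tt, Tail.code, Tail.value, delta, Pool.Agent.R352.E.gz]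
  | zeta k x =>
    have h1 : 2 ≤ k := ht.1
    have h2 : k - 1 ≠ 0 := by omega
    change Tt (k - 1, 0, x) = R k x
    rw [Tt, if_pos rfl, if_neg h2, Nat.sub_add_cancel (by omega), R_eq h1 ht.2]
  | gamma a x =>
    have h1 : a ≠ 0 := ht.1.ne'
    simp only [Tt, Tail.code, Tail.value, if_neg h1]
    rfl

theorem code_inj {t t' : Tail} (ht : t.Ok) (ht' : t'.Ok) (h : t.code = t'.code) : t = t' := by
  cases t with
  | delta x =>
    cases t' with
    | delta x' => simp only [Tail.code, Prod.mk.injEq, true_and] at h; rw [h]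
    | zeta k' x' =>
      simp only [Tail.code, Prod.mk.injEq] at h
      have : 2 ≤ k' := ht'.1
      omega
    | gamma a' x' =>
      simp only [Tail.code, Prod.mk.injEq] at h
      exact absurd h.2.1.symm ht'.1.ne'
  | zeta k x =>
    have hk : 2 ≤ k := ht.1
    cases t' with
    | delta x' => simp only [Tail.code, Prod.mk.injEq] at h; omega
    | zeta k' x' =>
      have hk' : 2 ≤ k' := ht'.1
      simp only [Tail.code, Prod.mk.injEq, true_and] at h
      rw [h.2, show k = k' by omega]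
    | gamma a' x' => simp only [Tail.code, Prod.mk.injEq] at h; omega
  | gamma a x =>
    cases t' with
    | delta x' =>
      simp only [Tail.code, Prod.mk.injEq] at h
      exact absurd h.2.1 ht.1.ne'
    | zeta k' x' =>
      simp only [Tail.code, Prod.mk.injEq] at h
      have : 2 ≤ k' := ht'.1
      omega
    | gamma a' x' => simp only [Tail.code, Prod.mk.injEq, true_and] at h; rw [h.1, h.2]

open Pool.Agent.J6H54.LG (Near)

/-- the joint measure -/
theorem measures {n : ℕ} (y : Fin n → ℝ) (S : Finset Tail)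
    (hS : ∀ t ∈ S, t.Ok ∧ OverQEAnd y t.const) (D : ℕ) : ∃ C : ℕ, ∀ H : ℝ, 2 ≤ H →
      ∀ T : Finset (Fin n ⊕ Tail), (∀ t, Sum.inr t ∈ T → t ∈ S) →
        (∀ i ∈ T, Near D H (1 / H ^ C) (Real.exp 1) (Sum.elim y Tail.value i)) → T.card ≤ n := by
  classical
  obtain ⟨C, hC⟩ := joint_tails' y (S.image Tail.code) (fun p hp => by
    obtain ⟨t, ht, rfl⟩ := Finset.mem_image.1 hp
    refine ⟨ok_code (hS t ht).1, ?_⟩
    rw [const_code (hS t ht).1]
    exact mem_clF.2 (hS t ht).2) D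
  refine ⟨C, fun H hH T hTS hT => ?_⟩
  have hinj : InjOn (Sum.map id Tail.code : Fin n ⊕ Tail → Fin n ⊕ (ℕ × ℚ × ℚ))
      (T : Set (Fin n ⊕ Tail)) := by
    intro a ha b hb hab
    rcases a with a | a <;> rcases b with b | b
    · rw [Sum.map_inl, Sum.map_inl] at hab
      exact congrArg Sum.inl (Sum.inl_injective hab)
    · rw [Sum.map_inl, Sum.map_inr] at hab
      exact absurd hab Sum.inl_ne_inr
    · rw [Sum.map_inl, Sum.map_inr] at hab
      exact absurd hab Sum.inr_ne_inl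
    · rw [Sum.map_inr, Sum.map_inr] at hab
      rw [code_inj (hS a (hTS a ha)).1 (hS b (hTS b hb)).1 (Sum.inr_injective hab)]
  rw [← Finset.card_image_of_injOn hinj]
  refine (hC H hH _ (fun p hp => ?_) (fun k hk => ?_)).trans (Fintype.card_fin n).le
  · obtain ⟨i, hi, hip⟩ := Finset.mem_image.1 hp
    rcases i with j | t
    · rw [Sum.map_inl] at hip
      exact absurd hip Sum.inl_ne_inr
    · rw [Sum.map_inr] at hip
      rw [← Sum.inr_injective hip]
      exact Finset.mem_image_of_mem _ (hTS t hi)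
  · obtain ⟨i, hi, rfl⟩ := Finset.mem_image.1 hk
    have h2 := hT _ hi
    rcases i with j | t
    · exact h2
    · rw [Sum.map_inr, Sum.elim_inr, value_code (hS t (hTS t hi)).1]
      exact h2

/-! #### the complexities -/

theorem complexity_mem (b : ℕ) (hb : 2 ≤ b) (x : ℝ) (r K L : ℕ) :
    ∃ d s, Close b x K L d s ∧ Relation d s r L (complexity b x r K L) := by
  refine Nat.sInf_mem (s := {k : ℕ | ∃ d s, Close b x K L d s ∧ Relation d s r L k})
    ⟨L + 1, digit b (Real.exp 1), digit b x, ⟨fun l => ⟨?_, ?_⟩, fun l => ⟨?_, ?_⟩, ?_⟩,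
      fun _ _ => X ^ (L + 1), ?_, ?_, ?_⟩
  · unfold digit
    exact Int.emod_nonneg _ (by exact_mod_cast (by omega : b ≠ 0))
  · unfold digit
    exact Int.emod_lt_of_pos _ (by exact_mod_cast (by omega : 0 < b))
  · unfold digit
    exact Int.emod_nonneg _ (by exact_mod_cast (by omega : b ≠ 0))
  · unfold digit
    exact Int.emod_lt_of_pos _ (by exact_mod_cast (by omega : 0 < b))
  · simp
  · intro h
    have := congrFun (congrFun h 0) 0
    exact pow_ne_zero _ X_ne_zero this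
  · intro i j
    simp
  · exact Finset.dvd_sum fun i _ => Finset.dvd_sum fun j _ => dvd_mul_right _ _

theorem digit_eq (b : ℕ) (x : ℝ) : digit b x = Pool.Agent.W472.AC.digit b x := rfl

theorem seqPoly_eq (s : ℕ → ℤ) (L : ℕ) : seqPoly s L = Pool.Agent.R473.EC.sQ s L := rfl

theorem rel_of_relation {d s : ℕ → ℤ} {r L k : ℕ} (h : Relation d s r L k) :
    Pool.Agent.J6H21.DR.Rel ![d, s] r L k := by
  obtain ⟨h, h0, hd, hX⟩ := h
  refine ⟨h, h0, hd, ?_⟩
  simp only [seqPoly_eq] at hX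
  exact hX

theorem chg_le {b : ℕ} {x : ℝ} {K L : ℕ} {d s : ℕ → ℤ} (h : Close b x K L d s) :
    (Pool.Agent.J6H21.DR.chg b (Real.exp 1) x ![d, s] L).ncard ≤ K := by
  refine (le_of_eq (congrArg Set.ncard ?_)).trans h.2.2
  ext l
  simp only [Pool.Agent.J6H21.DR.chg, Set.mem_ofPred_eq, Fin.exists_fin_two, Matrix.cons_val_zero,
    Matrix.cons_val_one]
  rfl

/-- (1) -/
theorem main {n : ℕ} (y : Fin n → ℝ) (S : Finset Tail)
    (hS : ∀ t ∈ S, t.Ok ∧ OverQEAnd y t.const) (r : ℕ) : ∃ A : ℝ, 1 ≤ A ∧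
      ∀ T : Finset (Fin n ⊕ Tail), (∀ t, Sum.inr t ∈ T → t ∈ S) → T.card = n + 1 →
        ∀ b K L : Fin n ⊕ Tail → ℕ, (∀ i ∈ T, 2 ≤ b i) →
          ∃ i ∈ T, (L i : ℝ) * Real.log (b i) ≤ A ^ (∑ i ∈ T, K i + 1) *
            ∑ i ∈ T, ((complexity (b i) (Sum.elim y Tail.value i) r (K i) (L i) : ℝ) + 1) *
              Real.log (b i) := by
  classical
  obtain ⟨C, hC⟩ := measures y S hS r
  obtain ⟨A, hA, h⟩ := Pool.Agent.J6H21.DR.multi (Real.exp 1) (Sum.elim y Tail.value)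
    (Finset.univ.image Sum.inl ∪ S.image Sum.inr) n r C
    (fun H hH T hT hnear => hC H hH T (fun t ht => by
      have h1 := hT ht
      rw [Finset.mem_union, Finset.mem_image, Finset.mem_image] at h1
      rcases h1 with ⟨i, _, hi⟩ | ⟨t', ht', hti⟩
      · exact absurd hi Sum.inl_ne_inr
      · rw [← Sum.inr_injective hti]; exact ht') hnear)
  refine ⟨A, hA, fun T hTS hT b K L hb => ?_⟩
  choose d s hcl hrel using fun i : Fin n ⊕ Tail => fun hi : 2 ≤ b i =>
    complexity_mem (b i) hi (Sum.elim y Tail.value i) r (K i) (L i)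
  refine h T (fun i hi => ?_) hT b K L
    (fun i => complexity (b i) (Sum.elim y Tail.value i) r (K i) (L i)) hb
    (fun i => if hi : 2 ≤ b i then ![d i hi, s i hi] else ![0, 0]) ?_ ?_ ?_
  · rcases i with j | t
    · exact Finset.mem_union_left _ (Finset.mem_image_of_mem _ (Finset.mem_univ j))
    · exact Finset.mem_union_right _ (Finset.mem_image_of_mem _ (hTS t hi))
  · intro i hi j l
    rw [dif_pos (hb i hi)]
    fin_cases j
    · exact (hcl i (hb i hi)).1 l
    · exact (hcl i (hb i hi)).2.1 l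
  · intro i hi
    rw [dif_pos (hb i hi)]
    exact chg_le (hcl i (hb i hi))
  · intro i hi
    rw [dif_pos (hb i hi)]
    exact Pool.Agent.J6H21.DR.srel_of_rel (rel_of_relation (hrel i (hb i hi)))

/-- the three numbers of the question -/
noncomputable def numbers : Fin 3 → ℝ := ![gam, zeta 3, zeta 3 / Real.pi ^ 3]

theorem zeta_pos : 0 < zeta 3 := Pool.Agent.R352.E.zt3_pos

theorem pi_mem : Real.pi ∈ clF ({Real.exp 1} ∪ range numbers) := by
  have h1 : zeta 3 ∈ clF ({Real.exp 1} ∪ range numbers) := subset_clF _ (Or.inr ⟨1, rfl⟩)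
  have h2 : zeta 3 / Real.pi ^ 3 ∈ clF ({Real.exp 1} ∪ range numbers) := subset_clF _ (Or.inr ⟨2, rfl⟩)
  refine Pool.Agent.R352.E.of_pow (n := 3) (by norm_num) ?_
  have h3 : Real.pi ^ 3 = zeta 3 / (zeta 3 / Real.pi ^ 3) := by
    have := zeta_pos.ne'
    have := Real.pi_ne_zero
    field_simp
  rw [h3]
  exact Subfield.div_mem _ h1 h2

theorem good_mem {t : Tail} (ht : t.Ok) (hg : t.Good) : OverQEAnd numbers t.const := by
  refine mem_clF.1 ?_
  cases t with
  | delta x =>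
    have hx : x = 1 := hg
    subst hx
    have : (Tail.delta 1).const = numbers 0 := by simp [Tail.const, numbers]
    rw [this]
    exact subset_clF _ (Or.inr ⟨0, rfl⟩)
  | zeta k x =>
    have hk : 2 ≤ k := ht.1
    rcases hg with hg | hg
    · subst hg
      exact subset_clF _ (Or.inr ⟨1, rfl⟩)
    · obtain ⟨j, hj⟩ := hg
      have h3 : k = 2 * j := by omega
      subst h3
      exact Pool.Agent.R352.E.zt_even pi_mem j (by omega)
  | gamma a x =>
    have ha : a = 1 / 2 := hg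
    subst ha
    refine Pool.Agent.R352.E.of_pow (n := 2) (by norm_num) ?_
    have h4 : (Tail.gamma (1 / 2) x).const ^ 2 = Real.pi := by
      simp only [Tail.const]
      have e : (((1 / 2 : ℚ)) : ℝ) = 1 / 2 := by norm_num
      rw [e, Real.Gamma_one_half_eq, Real.sq_sqrt Real.pi_pos.le]
    rw [h4]
    exact pi_mem

/-- one base, one length, one number of changes -/
theorem one_base {n : ℕ} (y : Fin n → ℝ) (S : Finset Tail)
    (hS : ∀ t ∈ S, t.Ok ∧ OverQEAnd y t.const) (r : ℕ) : ∃ c : ℝ, 0 < c ∧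
      ∀ b : ℕ, 2 ≤ b → ∀ K L : ℕ, ∀ T : Finset (Fin n ⊕ Tail), (∀ t, Sum.inr t ∈ T → t ∈ S) →
        (∀ i ∈ T, (complexity b (Sum.elim y Tail.value i) r K L : ℝ) + 1 < c ^ (K + 1) * L) →
          T.card ≤ n := by
  classical
  obtain ⟨A, hA, h⟩ := main y S hS r
  have hA0 : 0 < A := by linarith
  have hn0 : (0 : ℝ) ≤ n := Nat.cast_nonneg n
  refine ⟨1 / (((n : ℝ) + 1) * A ^ (n + 1)), by positivity, fun b hb K L T hTS hT => ?_⟩
  by_contra hcon
  push Not at hcon
  obtain ⟨T', hT', hcard⟩ := Finset.exists_subset_card_eq (show n + 1 ≤ T.card by omega)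
  obtain ⟨i, hi, h1⟩ := h T' (fun t ht => hTS t (hT' ht)) hcard (fun _ => b) (fun _ => K)
    (fun _ => L) (fun _ _ => hb)
  have hlb : 0 < Real.log b := Real.log_pos (by exact_mod_cast (by omega : 1 < b))
  have hsum : ∑ i ∈ T', ((complexity b (Sum.elim y Tail.value i) r K L : ℝ) + 1) * Real.log b <
      ((n : ℝ) + 1) * ((1 / (((n : ℝ) + 1) * A ^ (n + 1))) ^ (K + 1) * L * Real.log b) := by
    calc ∑ i ∈ T', ((complexity b (Sum.elim y Tail.value i) r K L : ℝ) + 1) * Real.log b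
        < ∑ _i ∈ T', (1 / (((n : ℝ) + 1) * A ^ (n + 1))) ^ (K + 1) * L * Real.log b :=
          Finset.sum_lt_sum_of_nonempty ⟨i, hi⟩ fun j hj =>
            mul_lt_mul_of_pos_right (hT j (hT' hj)) hlb
      _ = _ := by rw [Finset.sum_const, hcard, nsmul_eq_mul]; push_cast; ring
  have hK : ∑ _i ∈ T', K + 1 ≤ (n + 1) * (K + 1) := by
    rw [Finset.sum_const, hcard, smul_eq_mul]
    nlinarith
  have h2 : A ^ (∑ _i ∈ T', K + 1) ≤ (A ^ (n + 1)) ^ (K + 1) := by
    rw [← pow_mul]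
    exact pow_le_pow_right₀ hA hK
  have hL0 : (0 : ℝ) ≤ L := Nat.cast_nonneg L
  have h3 : (L : ℝ) * Real.log b < (L : ℝ) * Real.log b := by
    calc (L : ℝ) * Real.log b ≤ A ^ (∑ _i ∈ T', K + 1) *
          ∑ i ∈ T', ((complexity b (Sum.elim y Tail.value i) r K L : ℝ) + 1) * Real.log b := h1
      _ < A ^ (∑ _i ∈ T', K + 1) * (((n : ℝ) + 1) *
          ((1 / (((n : ℝ) + 1) * A ^ (n + 1))) ^ (K + 1) * L * Real.log b)) :=
          mul_lt_mul_of_pos_left hsum (by positivity)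
      _ ≤ (A ^ (n + 1)) ^ (K + 1) * (((n : ℝ) + 1) *
          ((1 / (((n : ℝ) + 1) * A ^ (n + 1))) ^ (K + 1) * L * Real.log b)) :=
          mul_le_mul_of_nonneg_right h2 (by positivity)
      _ = (((n : ℝ) + 1) / ((n : ℝ) + 1) ^ (K + 1)) * (L * Real.log b) := by
          rw [div_pow, one_pow, mul_pow]
          field_simp
      _ ≤ 1 * (L * Real.log b) := by
          refine mul_le_mul_of_nonneg_right ?_ (by positivity)
          rw [div_le_one (by positivity)]
          calc (n : ℝ) + 1 = ((n : ℝ) + 1) ^ 1 := (pow_one _).symm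
            _ ≤ ((n : ℝ) + 1) ^ (K + 1) := pow_le_pow_right₀ (by linarith) (by omega)
      _ = _ := one_mul _
  exact lt_irrefl _ h3

/-- two numbers, one base -/
theorem two_of (y : ℝ) (S : Finset Tail) (hS : ∀ t ∈ S, t.Ok ∧ t.const = y)
    (i j : Fin 1 ⊕ Tail) (hij : i ≠ j) (hi : ∀ t, i = Sum.inr t → t ∈ S)
    (hj : ∀ t, j = Sum.inr t → t ∈ S) (r : ℕ) :
    ∃ c : ℝ, 0 < c ∧ ∀ b : ℕ, 2 ≤ b → ∀ K L : ℕ,
      c ^ (K + 1) * (L : ℝ) ≤ complexity b (Sum.elim (fun _ => y) Tail.value i) r K L +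
        complexity b (Sum.elim (fun _ => y) Tail.value j) r K L + 2 := by
  classical
  obtain ⟨A, hA, h⟩ := main (fun _ : Fin 1 => y) S (fun t ht => ⟨(hS t ht).1, by
    rw [(hS t ht).2]
    exact mem_clF.1 (subset_clF _ (Or.inr ⟨0, rfl⟩))⟩) r
  have hA0 : 0 < A := by linarith
  refine ⟨1 / A ^ 2, by positivity, fun b hb K L => ?_⟩
  obtain ⟨l, -, h1⟩ := h {i, j} (by
    intro t ht
    simp only [Finset.mem_insert, Finset.mem_singleton] at ht
    rcases ht with ht | ht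
    · exact hi t ht.symm
    · exact hj t ht.symm) (Finset.card_pair hij) (fun _ => b) (fun _ => K) (fun _ => L)
    (fun _ _ => hb)
  have hlb : 0 < Real.log b := Real.log_pos (by exact_mod_cast (by omega : 1 < b))
  rw [Finset.sum_pair hij, Finset.sum_pair hij] at h1
  obtain ⟨M, hM⟩ : ∃ M : ℝ, M = complexity b (Sum.elim (fun _ => y) Tail.value i) r K L +
        complexity b (Sum.elim (fun _ => y) Tail.value j) r K L + 2 := ⟨_, rfl⟩
  have hM0 : 0 ≤ M := by rw [hM]; positivity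
  have h2 : (L : ℝ) * Real.log b ≤ (A ^ (K + K + 1) * M) * Real.log b := by
    refine h1.trans (le_of_eq ?_)
    rw [hM]
    ring
  have h3 := le_of_mul_le_mul_right h2 hlb
  have h4 : A ^ (K + K + 1) ≤ (A ^ 2) ^ (K + 1) := by
    rw [← pow_mul]
    exact pow_le_pow_right₀ hA (by omega)
  rw [← hM, div_pow, one_pow, div_mul_eq_mul_div, one_mul, div_le_iff₀ (by positivity)]
  calc (L : ℝ) ≤ A ^ (K + K + 1) * M := h3
    _ ≤ (A ^ 2) ^ (K + 1) * M := mul_le_mul_of_nonneg_right h4 hM0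
    _ = _ := by ring

/-- two numbers with a joint measure, without the digits of `e` -/
theorem two_abs (u v : ℝ) (huv : Pool.Agent.R356.JointR u v) (r : ℕ) :
    ∃ c : ℝ, 0 < c ∧ ∀ b : ℕ, 2 ≤ b → ∀ K L : ℕ,
      c ^ (K + 1) * (L : ℝ) ≤ complexity' b u r K L + complexity' b v r K L + 2 := by
  obtain ⟨A, hA, h⟩ := Pool.Agent.R473.JC.pair u v huv r
  have hA0 : 0 < A := by linarith
  refine ⟨1 / A ^ 2, by positivity, fun b hb K L => ?_⟩
  have hl : 0 < Real.log b := Real.log_pos (by exact_mod_cast (by omega : 1 < b))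
  have h1 := h b b hb hb K K L L
  rw [min_self] at h1
  have e : ∀ x : ℝ, complexity' b x r K L = Pool.Agent.R473.JC.complexity b x r K L := fun _ => rfl
  rw [e, e]
  obtain ⟨M, hM⟩ : ∃ M : ℝ, M = Pool.Agent.R473.JC.complexity b u r K L +
    Pool.Agent.R473.JC.complexity b v r K L + 2 := ⟨_, rfl⟩
  have hM0 : 0 ≤ M := by rw [hM]; positivity
  have h2 : (L : ℝ) ≤ A ^ (K + K + 1) * M := by
    have h3 : (L : ℝ) * Real.log b ≤ (A ^ (K + K + 1) * M) * Real.log b := by
      refine h1.trans (le_of_eq ?_)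
      rw [hM]
      ring
    exact le_of_mul_le_mul_right h3 hl
  have h4 : A ^ (K + K + 1) ≤ (A ^ 2) ^ (K + 1) := by
    rw [← pow_mul]
    exact pow_le_pow_right₀ hA (by omega)
  rw [← hM, div_pow, one_pow, div_mul_eq_mul_div, one_mul, div_le_iff₀ (by positivity)]
  calc (L : ℝ) ≤ A ^ (K + K + 1) * M := h2
    _ ≤ (A ^ 2) ^ (K + 1) * M := mul_le_mul_of_nonneg_right h4 hM0
    _ = _ := by ring

/-- **Relations between the digits of `γ`, `ζ(3)`, `ζ(3) / π³` and related numbers.** -/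
theorem result :
    -- (1)
    (∀ (n : ℕ) (y : Fin n → ℝ) (S : Finset Tail), (∀ t ∈ S, t.Ok ∧ OverQEAnd y t.const) →
      ∀ r : ℕ, ∃ A : ℝ, 1 ≤ A ∧
        ∀ T : Finset (Fin n ⊕ Tail), (∀ t, Sum.inr t ∈ T → t ∈ S) → T.card = n + 1 →
          ∀ b K L : Fin n ⊕ Tail → ℕ, (∀ i ∈ T, 2 ≤ b i) →
            ∃ i ∈ T, (L i : ℝ) * Real.log (b i) ≤ A ^ (∑ i ∈ T, K i + 1) *
              ∑ i ∈ T, ((complexity (b i) (Sum.elim y Tail.value i) r (K i) (L i) : ℝ) + 1) *
                Real.log (b i)) ∧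
    -- (2)
    (∀ S : Finset Tail, (∀ t ∈ S, t.Ok ∧ t.Good) → ∀ r : ℕ, ∃ c : ℝ, 0 < c ∧
      ∀ b : ℕ, 2 ≤ b → ∀ K L : ℕ, ∀ T : Finset (Fin 3 ⊕ Tail), (∀ t, Sum.inr t ∈ T → t ∈ S) →
        (∀ i ∈ T, (complexity b (Sum.elim numbers Tail.value i) r K L : ℝ) + 1 <
          c ^ (K + 1) * L) → T.card ≤ 3) ∧
    -- (3)
    (∀ t : Tail, t.Ok → ∀ r : ℕ, ∃ c : ℝ, 0 < c ∧ ∀ b : ℕ, 2 ≤ b → ∀ K L : ℕ,
      c ^ (K + 1) * (L : ℝ) ≤ complexity b t.const r K L + complexity b t.value r K L + 2) ∧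
    (∀ (k : ℕ) (x y : ℚ), 2 ≤ k → 0 < x → 0 < y → x ≠ y → ∀ r : ℕ, ∃ c : ℝ, 0 < c ∧
      ∀ b : ℕ, 2 ≤ b → ∀ K L : ℕ,
        c ^ (K + 1) * (L : ℝ) ≤ complexity b (R k x) r K L + complexity b (R k y) r K L + 2) ∧
    -- (4)
    (∀ r : ℕ, ∃ c : ℝ, 0 < c ∧ ∀ b : ℕ, 2 ≤ b → ∀ K L : ℕ,
      c ^ (K + 1) * (L : ℝ) ≤ complexity' b (zeta 3) r K L +
        complexity' b (zeta 3 / Real.pi ^ 3) r K L + 2) ∧
    (∀ t : ℝ, t ≠ 0 → ∀ i j : ℤ, i ≠ j → ∀ r : ℕ, ∃ c : ℝ, 0 < c ∧
      ∀ b : ℕ, 2 ≤ b → ∀ K L : ℕ,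
        c ^ (K + 1) * (L : ℝ) ≤ complexity' b (t * Real.pi ^ i) r K L +
          complexity' b (t * Real.pi ^ j) r K L + 2) ∧
    (∀ (t : ℝ) (f g : ℤ[X]), (f - g).natDegree ≠ 0 → ∀ r : ℕ, ∃ c : ℝ, 0 < c ∧
      ∀ b : ℕ, 2 ≤ b → ∀ K L : ℕ,
        c ^ (K + 1) * (L : ℝ) ≤ complexity' b (t + aeval Real.pi f) r K L +
          complexity' b (t + aeval Real.pi g) r K L + 2) := by
  classical
  have hpow : ∀ t : ℝ, t ≠ 0 → ∀ i j : ℤ, i ≠ j → ∀ r : ℕ, ∃ c : ℝ, 0 < c ∧
      ∀ b : ℕ, 2 ≤ b → ∀ K L : ℕ,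
        c ^ (K + 1) * (L : ℝ) ≤ complexity' b (t * Real.pi ^ i) r K L +
          complexity' b (t * Real.pi ^ j) r K L + 2 := fun t ht i j hij r =>
    two_abs _ _ (Pool.Agent.R473.JC.joint_powers Real.pi Pool.Agent.TH456.TM.measT_pi t ht i j hij) r
  refine ⟨fun n y S hS r => main y S hS r, fun S hS r =>
    one_base numbers S (fun t ht => ⟨(hS t ht).1, good_mem (hS t ht).1 (hS t ht).2⟩) r,
    fun t ht r => ?_, fun k x y hk hx hy hxy r => ?_, fun r => ?_, hpow, fun t f g hfg r => ?_⟩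
  · exact two_of t.const {t} (by simp [ht]) (Sum.inl 0) (Sum.inr t) Sum.inl_ne_inr
      (fun t' h => absurd h Sum.inl_ne_inr) (fun t' h => by
        rw [Finset.mem_singleton]; exact (Sum.inr_injective h).symm) r
  · exact two_of (zeta k) {Tail.zeta k x, Tail.zeta k y} (by
      intro t ht
      simp only [Finset.mem_insert, Finset.mem_singleton] at ht
      rcases ht with rfl | rfl
      · exact ⟨⟨hk, hx⟩, rfl⟩
      · exact ⟨⟨hk, hy⟩, rfl⟩) (Sum.inr (Tail.zeta k x)) (Sum.inr (Tail.zeta k y))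
      (fun h => hxy (by
        have := Sum.inr_injective h
        simpa using this))
      (fun t' h => by
        rw [← Sum.inr_injective h]; simp) (fun t' h => by
        rw [← Sum.inr_injective h]; simp) r
  · have h1 := hpow (zeta 3) zeta_pos.ne' 0 (-3) (by norm_num) r
    have e0 : zeta 3 * Real.pi ^ (0 : ℤ) = zeta 3 := by rw [zpow_zero, mul_one]
    have e3 : zeta 3 * Real.pi ^ (-3 : ℤ) = zeta 3 / Real.pi ^ 3 := by
      rw [div_eq_mul_inv, zpow_neg]
      norm_cast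
    rwa [e0, e3] at h1
  · exact two_abs _ _ (Pool.Agent.R473.JC.jointR_of_alg Real.pi Pool.Agent.TH456.TM.measT_pi _ _
      (Pool.Agent.R473.JC.alg_diff Real.pi t f g hfg)) r

end Pool.Agent.Results.MP_e48a95_nt.DigitRelations
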