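import Pool.Agent.J6H54.LG.Tails
import Pool.Agent.J6H54.LG.Appr

set_option autoImplicit false

/-!
# `ζ(3)`, `ζ(3) / π³` and Euler's constant at one scale: joint transcendence measures

For integers `k ≥ 2` and rational `x > 0`, `0 < a < 1` let

* `δ(x) = ∫_0^∞ e^(-s) / (x + s) ds` (`δ(1)` is the Gompertz constant); its constant is `γ + log x`;
* `R_k(x) = (-1)^k / k! * ∫ (∑_j ω^j log t_j)^k exp (-∑_j t_j) dt`, `ω = exp (2 π i / k)`, the integral
  being over the points of the positive octant with `max t_j ≥ x`; its constant is `ζ(k)`, the value of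
  the same integral over the whole octant;
* `Γ(a, x) = ∫_x^∞ t^(a-1) e^(-t) dt`; its constant is `Γ(a)`; for `a = 1/2` this is
  `√π erfc √x = 2 ∫_(√x)^∞ exp (-t²) dt`, the constant being `√π`.

These numbers are called tails. A real number `θ` is near at the scale `H` (with parameters `D`, `C`) if
`|P(e, θ)| ≤ H^(-C)` for some nonzero polynomial `P` with integer coefficients of absolute value at most
`H`, of degree at most `D` in both variables. In particular this is so (with another `C`) if `θ` is within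
`H^(-C)` of an algebraic number of degree at most `D` and height at most `H`.

(1) Let `y_1, …, y_r` be real numbers and `S` a finite set of tails with constants algebraic over
`ℚ(e, y_1, …, y_r)`. For every `D` there is `C` such that for EVERY `H ≥ 2` at most `r` of the numbers
`y_1, …, y_r` and the tails in `S` are near at the scale `H`.

(2) So for every finite set `S` of tails `δ(1)`, `R_3(x)`, `R_k(x)` (`k` even), `Γ(1/2, x)` and for every
`D` there is `C` such that for every `H ≥ 2` at most three of the numbers `γ`, `ζ(3)`, `ζ(3) / π³` and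
the tails in `S` are near at the scale `H`; at most three of them are within `H^(-C)` of algebraic
numbers of degree at most `D` and height at most `H`.

(3) For every rational `x > 0` and `D` there is `C` such that for every `H ≥ 2` the numbers `γ + log x`
and `δ(x)` are not both near at the scale `H`; the same is true for `ζ(k)` and `R_k(x)`, for `R_k(x)` and
`R_k(y)`, `x ≠ y`, and for `Γ(a)` and `Γ(a, x)`.
-/

namespace Pool.Agent.Results.MP_e48a95_nt.JointMeasures

open Set MeasureTheory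
open Pool.Agent.J6H54.LG
open Pool.Agent.R352.E (clF mem_clF subset_clF)

/-- the zeta value `ζ(k) = ∑ 1 / (n+1)^k` -/
noncomputable def zeta (k : ℕ) : ℝ := ∑' n : ℕ, 1 / ((n : ℝ) + 1) ^ k

/-- Euler's constant -/
noncomputable abbrev gam : ℝ := Real.eulerMascheroniConstant

/-- `δ(x) = ∫_0^∞ e^(-s) / (x + s) ds` -/
noncomputable def delta (x : ℚ) : ℝ := ∫ s in Ioi (0 : ℝ), Real.exp (-s) / ((x : ℝ) + s)

/-- `ω = exp (2 π i / k)` -/
noncomputable def root (k : ℕ) : ℂ := Complex.exp (2 * Real.pi * Complex.I / k)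

/-- `(∑_j ω^j log t_j)^k exp (-∑_j t_j)` -/
noncomputable def integrand (k : ℕ) (t : Fin k → ℝ) : ℂ :=
  (∑ j : Fin k, root k ^ (j : ℕ) * (Real.log (t j) : ℂ)) ^ k * ((Real.exp (-∑ j, t j) : ℝ) : ℂ)

/-- the positive octant without the cube `(0, x)^k` -/
def rest (k : ℕ) (x : ℝ) : Set (Fin k → ℝ) := {t | (∀ j, 0 < t j) ∧ ∃ j, x ≤ t j}

/-- the integral over the rest -/
noncomputable def tailIntegral (k : ℕ) (x : ℝ) : ℂ :=
  (-1) ^ k / (k.factorial : ℂ) * ∫ t in rest k x, integrand k t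

/-- `R_k(x)`, as a real number -/
noncomputable def R (k : ℕ) (x : ℚ) : ℝ := (tailIntegral k x).re

/-- `Γ(a, x) = ∫_x^∞ t^(a-1) e^(-t) dt` -/
noncomputable def upper (a x : ℚ) : ℝ := ∫ t in Ioi (x : ℝ), t ^ ((a : ℝ) - 1) * Real.exp (-t)

/-- the names of the tails -/
inductive Tail where
  | delta (x : ℚ)
  | zeta (k : ℕ) (x : ℚ)
  | gamma (a x : ℚ)

namespace Tail

/-- the admissible parameters -/
def Ok : Tail → Prop
  | delta x => 0 < x
  | zeta k x => 2 ≤ k ∧ 0 < x
  | gamma a x => 0 < a ∧ a < 1 ∧ 0 < x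

/-- the tails -/
noncomputable def value : Tail → ℝ
  | delta x => JointMeasures.delta x
  | zeta k x => R k x
  | gamma a x => upper a x

/-- their constants -/
noncomputable def const : Tail → ℝ
  | delta x => gam + Real.log x
  | zeta k _ => JointMeasures.zeta k
  | gamma a _ => Real.Gamma a

/-- `δ(1)`, `R_3(x)`, `R_k(x)` with even `k`, `Γ(1/2, x)` -/
def Good : Tail → Prop
  | delta x => x = 1
  | zeta k _ => k = 3 ∨ Even k
  | gamma a _ => a = 1 / 2

/-- the code -/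
def code : Tail → ℕ × ℚ × ℚ
  | delta x => (0, 0, x)
  | zeta k x => (k - 1, 0, x)
  | gamma a x => (0, a, x)

end Tail

/-- `x` is algebraic over `ℚ(e, y_1, …, y_r)` -/
def OverQEAnd {r : ℕ} (y : Fin r → ℝ) (x : ℝ) : Prop :=
  IsAlgebraic (IntermediateField.adjoin ℚ ({Real.exp 1} ∪ range y)) x

theorem rest_eq (k : ℕ) (x : ℝ) :
    rest k x = Pool.Agent.R352.Q.cube k (Ioi 0) \ Pool.Agent.R352.Q.cube k (Ioo 0 x) := by
  ext t
  simp only [rest, Pool.Agent.R352.Q.cube, mem_sdiff, mem_univ_pi, mem_Ioi, mem_Ioo]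
  constructor
  · rintro ⟨h1, j, h2⟩
    exact ⟨h1, fun h => absurd (h j).2 (not_lt.2 h2)⟩
  · rintro ⟨h1, h2⟩
    push Not at h2
    obtain ⟨j, hj⟩ := h2
    exact ⟨h1, j, hj (h1 j)⟩

theorem R_eq {k : ℕ} (hk : 2 ≤ k) {x : ℚ} (hx : 0 < x) : R k x = Pool.Agent.R352.Q.Rk k x := by
  have hx' : (0 : ℝ) < x := by exact_mod_cast hx
  have h : tailIntegral k x = Pool.Agent.R352.Q.NI k
      (Pool.Agent.R352.Q.cube k (Ioi 0) \ Pool.Agent.R352.Q.cube k (Ioo 0 x)) := by
    rw [tailIntegral, rest_eq]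
    rfl
  have h2 : tailIntegral k x = (Pool.Agent.R352.Q.Rk k x : ℂ) := by
    rw [h, Pool.Agent.R352.Q.NI_diff, Pool.Agent.R352.Q.NI_full hk, Pool.Agent.R352.Q.NI_box hk hx',
      Pool.Agent.R352.Q.Rk]
    push_cast
    rfl
  rw [R, h2, Complex.ofReal_re]

theorem ok_code {t : Tail} (ht : t.Ok) : Ok t.code := by
  cases t with
  | delta x => exact ⟨le_rfl, one_pos, ht, Or.inl rfl⟩
  | zeta k x => exact ⟨le_rfl, one_pos, ht.2, Or.inl rfl⟩
  | gamma a x => exact ⟨ht.1.le, ht.2.1, ht.2.2, Or.inr rfl⟩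

theorem const_code {t : Tail} (ht : t.Ok) : Kt t.code = t.const := by
  cases t with
  | delta x => simp [Kt, Tail.code, Tail.const]
  | zeta k x =>
    have h1 : 2 ≤ k := ht.1
    have h2 : k - 1 ≠ 0 := by omega
    change Kt (k - 1, 0, x) = zeta k
    rw [Kt, if_pos rfl, if_neg h2, Nat.sub_add_cancel (by omega)]
    rfl
  | gamma a x =>
    have h1 : a ≠ 0 := ht.1.ne'
    simp only [Kt, Tail.code, Tail.const, if_neg h1]

theorem value_code {t : Tail} (ht : t.Ok) : Tt t.code = t.value := by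
  cases t with
  | delta x => simp [Tt, Tail.code, Tail.value, delta, Pool.Agent.R352.E.gz]
  | zeta k x =>
    have h1 : 2 ≤ k := ht.1
    have h2 : k - 1 ≠ 0 := by omega
    change Tt (k - 1, 0, x) = R k x
    rw [Tt, if_pos rfl, if_neg h2, Nat.sub_add_cancel (by omega), R_eq h1 ht.2]
  | gamma a x =>
    have h1 : a ≠ 0 := ht.1.ne'
    simp only [Tt, Tail.code, Tail.value, if_neg h1]
    rfl

theorem code_inj {t t' : Tail} (ht : t.Ok) (ht' : t'.Ok) (h : t.code = t'.code) : t = t' := by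
  cases t with
  | delta x =>
    cases t' with
    | delta x' => simp only [Tail.code, Prod.mk.injEq, true_and] at h; rw [h]
    | zeta k' x' =>
      simp only [Tail.code, Prod.mk.injEq] at h
      have : 2 ≤ k' := ht'.1
      omega
    | gamma a' x' =>
      simp only [Tail.code, Prod.mk.injEq] at h
      exact absurd h.2.1.symm ht'.1.ne'
  | zeta k x =>
    have hk : 2 ≤ k := ht.1
    cases t' with
    | delta x' => simp only [Tail.code, Prod.mk.injEq] at h; omega
    | zeta k' x' =>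
      have hk' : 2 ≤ k' := ht'.1
      simp only [Tail.code, Prod.mk.injEq, true_and] at h
      rw [h.2, show k = k' by omega]
    | gamma a' x' => simp only [Tail.code, Prod.mk.injEq] at h; omega
  | gamma a x =>
    cases t' with
    | delta x' =>
      simp only [Tail.code, Prod.mk.injEq] at h
      exact absurd h.2.1 ht.1.ne'
    | zeta k' x' =>
      simp only [Tail.code, Prod.mk.injEq] at h
      have : 2 ≤ k' := ht'.1
      omega
    | gamma a' x' => simp only [Tail.code, Prod.mk.injEq, true_and] at h; rw [h.1, h.2]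

/-- (1) -/
theorem main {r : ℕ} (y : Fin r → ℝ) (S : Finset Tail)
    (hS : ∀ t ∈ S, t.Ok ∧ OverQEAnd y t.const) (D : ℕ) : ∃ C : ℕ, ∀ H : ℝ, 2 ≤ H →
      ∀ T : Finset (Fin r ⊕ Tail), (∀ t, Sum.inr t ∈ T → t ∈ S) →
        (∀ i ∈ T, Near D H (1 / H ^ C) (Real.exp 1) (Sum.elim y Tail.value i)) → T.card ≤ r := by
  classical
  obtain ⟨C, hC⟩ := joint_tails' y (S.image Tail.code) (fun p hp => by
    obtain ⟨t, ht, rfl⟩ := Finset.mem_image.1 hp
    refine ⟨ok_code (hS t ht).1, ?_⟩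
    rw [const_code (hS t ht).1]
    exact mem_clF.2 (hS t ht).2) D
  refine ⟨C, fun H hH T hTS hT => ?_⟩
  have hinj : InjOn (Sum.map id Tail.code : Fin r ⊕ Tail → Fin r ⊕ (ℕ × ℚ × ℚ))
      (T : Set (Fin r ⊕ Tail)) := by
    intro a ha b hb hab
    rcases a with a | a <;> rcases b with b | b
    · rw [Sum.map_inl, Sum.map_inl] at hab
      exact congrArg Sum.inl (Sum.inl_injective hab)
    · rw [Sum.map_inl, Sum.map_inr] at hab
      exact absurd hab Sum.inl_ne_inr
    · rw [Sum.map_inl, Sum.map_inr] at hab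
      exact absurd hab Sum.inr_ne_inl
    · rw [Sum.map_inr, Sum.map_inr] at hab
      rw [code_inj (hS a (hTS a ha)).1 (hS b (hTS b hb)).1 (Sum.inr_injective hab)]
  rw [← Finset.card_image_of_injOn hinj]
  refine (hC H hH _ (fun p hp => ?_) (fun k hk => ?_)).trans (Fintype.card_fin r).le
  · obtain ⟨i, hi, hip⟩ := Finset.mem_image.1 hp
    rcases i with j | t
    · rw [Sum.map_inl] at hip
      exact absurd hip Sum.inl_ne_inr
    · rw [Sum.map_inr] at hip
      rw [← Sum.inr_injective hip]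
      exact Finset.mem_image_of_mem _ (hTS t hi)
  · obtain ⟨i, hi, rfl⟩ := Finset.mem_image.1 hk
    have h2 := hT _ hi
    rcases i with j | t
    · exact h2
    · rw [Sum.map_inr, Sum.elim_inr, value_code (hS t (hTS t hi)).1]
      exact h2

/-- the three numbers of the question -/
noncomputable def numbers : Fin 3 → ℝ := ![gam, zeta 3, zeta 3 / Real.pi ^ 3]

theorem zeta_pos : 0 < zeta 3 := Pool.Agent.R352.E.zt3_pos

theorem pi_mem : Real.pi ∈ clF ({Real.exp 1} ∪ range numbers) := by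
  have h1 : zeta 3 ∈ clF ({Real.exp 1} ∪ range numbers) := subset_clF _ (Or.inr ⟨1, rfl⟩)
  have h2 : zeta 3 / Real.pi ^ 3 ∈ clF ({Real.exp 1} ∪ range numbers) := subset_clF _ (Or.inr ⟨2, rfl⟩)
  refine Pool.Agent.R352.E.of_pow (n := 3) (by norm_num) ?_
  have h3 : Real.pi ^ 3 = zeta 3 / (zeta 3 / Real.pi ^ 3) := by
    have := zeta_pos.ne'
    have := Real.pi_ne_zero
    field_simp
  rw [h3]
  exact Subfield.div_mem _ h1 h2

theorem good_mem {t : Tail} (ht : t.Ok) (hg : t.Good) : OverQEAnd numbers t.const := by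
  refine mem_clF.1 ?_
  cases t with
  | delta x =>
    have hx : x = 1 := hg
    subst hx
    have : (Tail.delta 1).const = numbers 0 := by simp [Tail.const, numbers]
    rw [this]
    exact subset_clF _ (Or.inr ⟨0, rfl⟩)
  | zeta k x =>
    have hk : 2 ≤ k := ht.1
    rcases hg with hg | hg
    · subst hg
      exact subset_clF _ (Or.inr ⟨1, rfl⟩)
    · obtain ⟨j, hj⟩ := hg
      have h3 : k = 2 * j := by omega
      subst h3
      exact Pool.Agent.R352.E.zt_even pi_mem j (by omega)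
  | gamma a x =>
    have ha : a = 1 / 2 := hg
    subst ha
    refine Pool.Agent.R352.E.of_pow (n := 2) (by norm_num) ?_
    have h4 : (Tail.gamma (1 / 2) x).const ^ 2 = Real.pi := by
      simp only [Tail.const]
      have e : (((1 / 2 : ℚ)) : ℝ) = 1 / 2 := by norm_num
      rw [e, Real.Gamma_one_half_eq, Real.sq_sqrt Real.pi_pos.le]
    rw [h4]
    exact pi_mem

/-- (2) -/
theorem three (S : Finset Tail) (hS : ∀ t ∈ S, t.Ok ∧ t.Good) (D : ℕ) : ∃ C : ℕ, ∀ H : ℝ, 2 ≤ H →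
    ∀ T : Finset (Fin 3 ⊕ Tail), (∀ t, Sum.inr t ∈ T → t ∈ S) →
      (∀ i ∈ T, Near D H (1 / H ^ C) (Real.exp 1) (Sum.elim numbers Tail.value i)) → T.card ≤ 3 :=
  main numbers S (fun t ht => ⟨(hS t ht).1, good_mem (hS t ht).1 (hS t ht).2⟩) D

theorem three_appr (S : Finset Tail) (hS : ∀ t ∈ S, t.Ok ∧ t.Good) (D : ℕ) : ∃ C : ℕ, ∀ H : ℝ,
    2 ≤ H → ∀ T : Finset (Fin 3 ⊕ Tail), (∀ t, Sum.inr t ∈ T → t ∈ S) →
      (∀ i ∈ T, Appr D H (1 / H ^ C) (Sum.elim numbers Tail.value i)) → T.card ≤ 3 := by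
  classical
  obtain ⟨C, hC⟩ := three S hS D
  choose B hB using fun θ => near_of_appr D (Real.exp 1) θ
  obtain ⟨A, hA⟩ : ∃ A, A = (Finset.univ.image fun j => B (numbers j)).sup id +
    (S.image fun t => B t.value).sup id := ⟨_, rfl⟩
  refine ⟨C + A, fun H hH T hTS hT => hC H hH T hTS fun i hi => ?_⟩
  have hH1 : 1 ≤ H := by linarith
  have hBA : B (Sum.elim numbers Tail.value i) ≤ A := by
    rw [hA]
    rcases i with j | t
    · exact (Finset.le_sup (f := id) (Finset.mem_image_of_mem (fun j => B (numbers j))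
        (Finset.mem_univ j))).trans (Nat.le_add_right _ _)
    · exact (Finset.le_sup (f := id) (Finset.mem_image_of_mem (fun t : Tail => B t.value)
        (hTS t hi))).trans (Nat.le_add_left _ _)
  refine hB _ C H hH ?_
  obtain ⟨α, P, h1, h2, h3, h4, h5⟩ := hT i hi
  refine ⟨α, P, h1, h2, h3, h4, h5.trans ?_⟩
  exact one_div_le_one_div_of_le (by positivity) (pow_le_pow_right₀ hH1 (by omega))

/-- (3) -/
theorem pair (y : ℝ) (S : Finset Tail) (hS : ∀ t ∈ S, t.Ok ∧ t.const = y) (D : ℕ) : ∃ C : ℕ,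
    ∀ H : ℝ, 2 ≤ H → ∀ T : Finset (Fin 1 ⊕ Tail), (∀ t, Sum.inr t ∈ T → t ∈ S) →
      (∀ i ∈ T, Near D H (1 / H ^ C) (Real.exp 1) (Sum.elim (fun _ => y) Tail.value i)) →
        T.card ≤ 1 :=
  main (fun _ => y) S (fun t ht => ⟨(hS t ht).1, by
    rw [(hS t ht).2]
    exact mem_clF.1 (subset_clF _ (Or.inr ⟨0, rfl⟩))⟩) D

theorem pair_const (t : Tail) (ht : t.Ok) (D : ℕ) : ∃ C : ℕ, ∀ H : ℝ, 2 ≤ H →
    ¬ (Near D H (1 / H ^ C) (Real.exp 1) t.const ∧ Near D H (1 / H ^ C) (Real.exp 1) t.value) := by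
  classical
  obtain ⟨C, hC⟩ := pair t.const {t} (by simp [ht]) D
  refine ⟨C, fun H hH h => ?_⟩
  have h1 := hC H hH {Sum.inl 0, Sum.inr t} (by simp) (by
    intro i hi
    simp only [Finset.mem_insert, Finset.mem_singleton] at hi
    rcases hi with rfl | rfl
    · exact h.1
    · exact h.2)
  rw [Finset.card_pair (by simp)] at h1
  omega

theorem pair_tails (k : ℕ) (hk : 2 ≤ k) (x y : ℚ) (hx : 0 < x) (hy : 0 < y) (hxy : x ≠ y) (D : ℕ) :
    ∃ C : ℕ, ∀ H : ℝ, 2 ≤ H →
      ¬ (Near D H (1 / H ^ C) (Real.exp 1) (R k x) ∧ Near D H (1 / H ^ C) (Real.exp 1) (R k y)) := by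
  classical
  obtain ⟨C, hC⟩ := pair (zeta k) {Tail.zeta k x, Tail.zeta k y} (by
    intro t ht
    simp only [Finset.mem_insert, Finset.mem_singleton] at ht
    rcases ht with rfl | rfl
    · exact ⟨⟨hk, hx⟩, rfl⟩
    · exact ⟨⟨hk, hy⟩, rfl⟩) D
  refine ⟨C, fun H hH h => ?_⟩
  have h1 := hC H hH {Sum.inr (Tail.zeta k x), Sum.inr (Tail.zeta k y)} (by
    intro t ht
    simpa using ht) (by
    intro i hi
    simp only [Finset.mem_insert, Finset.mem_singleton] at hi
    rcases hi with rfl | rfl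
    · exact h.1
    · exact h.2)
  rw [Finset.card_pair (by simpa using hxy)] at h1
  omega

/-- **`ζ(3)`, `ζ(3) / π³` and Euler's constant at one scale.** -/
theorem result :
    -- (1)
    (∀ (r : ℕ) (y : Fin r → ℝ) (S : Finset Tail), (∀ t ∈ S, t.Ok ∧ OverQEAnd y t.const) →
      ∀ D : ℕ, ∃ C : ℕ, ∀ H : ℝ, 2 ≤ H →
        ∀ T : Finset (Fin r ⊕ Tail), (∀ t, Sum.inr t ∈ T → t ∈ S) →
          (∀ i ∈ T, Near D H (1 / H ^ C) (Real.exp 1) (Sum.elim y Tail.value i)) → T.card ≤ r) ∧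
    -- (2)
    (∀ S : Finset Tail, (∀ t ∈ S, t.Ok ∧ t.Good) → ∀ D : ℕ, ∃ C : ℕ, ∀ H : ℝ, 2 ≤ H →
      ∀ T : Finset (Fin 3 ⊕ Tail), (∀ t, Sum.inr t ∈ T → t ∈ S) →
        (∀ i ∈ T, Near D H (1 / H ^ C) (Real.exp 1) (Sum.elim numbers Tail.value i)) →
          T.card ≤ 3) ∧
    (∀ S : Finset Tail, (∀ t ∈ S, t.Ok ∧ t.Good) → ∀ D : ℕ, ∃ C : ℕ, ∀ H : ℝ, 2 ≤ H →
      ∀ T : Finset (Fin 3 ⊕ Tail), (∀ t, Sum.inr t ∈ T → t ∈ S) →
        (∀ i ∈ T, Appr D H (1 / H ^ C) (Sum.elim numbers Tail.value i)) → T.card ≤ 3) ∧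
    -- (3)
    (∀ t : Tail, t.Ok → ∀ D : ℕ, ∃ C : ℕ, ∀ H : ℝ, 2 ≤ H →
      ¬ (Near D H (1 / H ^ C) (Real.exp 1) t.const ∧ Near D H (1 / H ^ C) (Real.exp 1) t.value)) ∧
    (∀ (k : ℕ) (x y : ℚ), 2 ≤ k → 0 < x → 0 < y → x ≠ y → ∀ D : ℕ, ∃ C : ℕ, ∀ H : ℝ, 2 ≤ H →
      ¬ (Near D H (1 / H ^ C) (Real.exp 1) (R k x) ∧ Near D H (1 / H ^ C) (Real.exp 1) (R k y))) :=
  ⟨fun _ y S hS D => main y S hS D, three, three_appr, pair_const,
    fun k x y hk hx hy hxy D => pair_tails k hk x y hx hy hxy D⟩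

end Pool.Agent.Results.MP_e48a95_nt.JointMeasures
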